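import Pool.Agent.R465.CV.Avg

/-!
# Cyclic covers, weak approximation: classes and averaging
-/

set_option autoImplicit false

namespace Pool.Agent.K6.H67.CW

open Pool.Agent.Y716.Q Pool.Agent.Y716.C Pool.Agent.Y363.C7 Pool.Agent.Y813.C5
open Pool.Agent.R465.CV (tw)

variable {ι : Type*} [Fintype ι]

/-- non-degenerate local data -/
def GoodV (e : Fin 1 → ℕ) (m w : ℕ) (γ η H : ℝ) (Q : ℕ)
    (T : MvPolynomial ι ℤ → ℕ → (ι → ℤ) → (ι → ℝ) → Prop) (f : Fin 1 → MvPolynomial ι ℤ) : Prop :=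
  ∃ (G : MvPolynomial ι ℤ) (S J : ℕ) (xc : ι → ℤ) (ξ : ι → ℝ) (a : Fin 1 → ι)
    (Li : Matrix (Fin 1) (Fin 1) ℝ),
    PDataS w (tw m G f) S J xc ∧ S * J = Q ∧ T G S xc ξ ∧ (∀ j, IsF (e j + 2) H (tw m G f j)) ∧
    (∃ r, ξ r = 1) ∧ (∀ i, |ξ i| ≤ 1) ∧
    (∀ j, |MvPolynomial.aeval ξ (tw m G f j)| ≤ (mons ι (e j + 2)).card * (η / 2 * H)) ∧
    Function.Injective a ∧
    Li * (Matrix.of fun j j' : Fin 1 =>
      (MvPolynomial.aeval ξ (MvPolynomial.pderiv (a j') (tw m G f j)) : ℝ) / H) = 1 ∧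
    ∀ j j', |Li j j'| ≤ 1 / (2 * γ)

/-- the data of a class -/
def ClassV (e : Fin 1 → ℕ) (m w : ℕ) (γ η H : ℝ) (Q : ℕ)
    (T : MvPolynomial ι ℤ → ℕ → (ι → ℤ) → (ι → ℝ) → Prop) (f : Fin 1 → MvPolynomial ι ℤ) : Prop :=
  ∃ (G : MvPolynomial ι ℤ) (S J : ℕ) (xc : ι → ℤ) (ξ : ι → ℝ) (a : Fin 1 → ι)
    (Li : Matrix (Fin 1) (Fin 1) ℝ),
    PDataS w (tw m G f) S J xc ∧ S * J = Q ∧ T G S xc ξ ∧ RDataS e H γ η (tw m G f) ξ a Li

theorem GoodV.shift {e : Fin 1 → ℕ} {m w : ℕ} {γ η H : ℝ} {Cf : Fin 1 → ℝ} {Q : ℕ}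
    {T : MvPolynomial ι ℤ → ℕ → (ι → ℤ) → (ι → ℝ) → Prop}
    {f g : Fin 1 → MvPolynomial ι ℤ} (hQ : 1 ≤ Q)
    (h : GoodV e m w γ η H Q T f) (hγ : 0 < γ) (hH : 0 < H) (hη : 0 ≤ η) (hη1 : η ≤ 1)
    (hCf : ∀ j, ∀ (f : MvPolynomial ι ℤ) (R : ℝ), IsF (e j + 1) R f →
      ∀ x : ι → ℝ, (∀ i, |x i| ≤ 1) → |MvPolynomial.aeval x f| ≤ Cf j * R)
    (hηC : ∀ j, Cf j * (e j + 2) * η ≤ γ) (hCf0 : ∀ j, 0 ≤ Cf j)
    (hg : ∀ j, IsF (e j + 2) (η / 2 * H / Q) (g j)) :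
    ClassV e m w γ η H Q T (fun j => f j - MvPolynomial.C (Q : ℤ) * g j) := by
  obtain ⟨G, S, J, xc, ξ, a, Li, h1, h2, hT, h3, h4, h5, h6, h7, h8, h9⟩ := h
  have hv' := PDataS_shift h1 (fun j => -(g j))
  have hmem : memS (tw m G f) S J (fun j => -(g j)) =
      fun j => tw m G f j - MvPolynomial.C (Q : ℤ) * g j := by
    funext j
    exact mem'_neg (tw m G f j) (g j) h2
  have htw : tw m G (fun j => f j - MvPolynomial.C (Q : ℤ) * g j) =
      fun j => tw m G f j - MvPolynomial.C (Q : ℤ) * g j := by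
    funext j
    unfold tw
    ring
  rw [hmem] at hv'
  have hQr : (0:ℝ) < Q := by exact_mod_cast hQ
  have hQA : |((Q : ℤ) : ℝ)| * (η / 2 * H / Q) = η / 2 * H := by
    rw [Int.cast_natCast, abs_of_pos hQr]
    field_simp
  have hQg : ∀ j, IsF (e j + 2) (η / 2 * H) (MvPolynomial.C (Q : ℤ) * g j) := by
    intro j
    have := (hg j).C_mul (Q : ℤ)
    rwa [hQA] at this
  have hηH : η / 2 * H ≤ H := by nlinarith
  obtain ⟨Li', hL1, hL2⟩ := inv_shift (s := 1) le_rfl (κ := γ) hγ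
    (by simp) Li _
    (Matrix.of fun j j' : Fin 1 => (MvPolynomial.aeval ξ (MvPolynomial.pderiv (a j')
      (tw m G f j - MvPolynomial.C (Q : ℤ) * g j)) : ℝ) / H) h8 h9 (by
    intro j j'
    rw [Matrix.of_apply, Matrix.of_apply, ← sub_div, ← map_sub, ← map_sub, sub_sub_cancel, abs_div,
      abs_of_pos hH, div_le_iff₀ hH]
    have h12 := hCf j _ _ ((hQg j).pderiv (a j')) ξ h5
    refine h12.trans ?_
    have h13 := hηC j
    have h14 := mul_le_mul_of_nonneg_right h13 hH.le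
    have h15 : 0 ≤ Cf j * (e j + 2) * η * H := by
      have := hCf0 j
      positivity
    push_cast at h14 ⊢
    linarith)
  refine ⟨G, S, J, xc, ξ, a, Li', ?_, h2, hT, ?_⟩
  · rw [htw]; exact hv'
  rw [htw]
  refine ⟨fun j => ((h3 j).sub (hQg j)).mono (by linarith), h5, h4, ?_, h7, hL1, hL2⟩
  intro j
  rw [map_sub]
  refine (abs_sub _ _).trans ?_
  have h10 := (hQg j).aeval_le_one h5
  have h11 := h6 j
  have h12 : ((mons ι (e j + 2)).card : ℝ) * (η * H) = (mons ι (e j + 2)).card * (η / 2 * H) +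
    (mons ι (e j + 2)).card * (η / 2 * H) := by ring
  rw [h12]
  exact add_le_add h11 h10

open scoped Classical in
/-- averaging over the classes -/
theorem avg_countV {e : Fin 1 → ℕ} {m w : ℕ} {γ η H H₁ : ℝ} {Cf : Fin 1 → ℝ} {Q : ℕ}
    {T : MvPolynomial ι ℤ → ℕ → (ι → ℤ) → (ι → ℝ) → Prop}
    (hQ : 1 ≤ Q) (hγ : 0 < γ) (hH : 0 < H) (hη : 0 ≤ η) (hη1 : η ≤ 1)
    (hH₁ : η / 2 * H ≤ H₁)
    (hCf : ∀ j, ∀ (f : MvPolynomial ι ℤ) (R : ℝ), IsF (e j + 1) R f →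
      ∀ x : ι → ℝ, (∀ i, |x i| ≤ 1) → |MvPolynomial.aeval x f| ≤ Cf j * R)
    (hηC : ∀ j, Cf j * (e j + 2) * η ≤ γ) (hCf0 : ∀ j, 0 ≤ Cf j)
    (q : (Fin 1 → MvPolynomial ι ℤ) → Prop) {ε : ℝ} (hε : 0 ≤ ε)
    (hcl : ∀ f, ClassV e m w γ η H Q T f →
      (((sysZ ι e (η / 2 * H / Q)).filter (fun g =>
        q (fun j => f j + MvPolynomial.C (Q : ℤ) * g j))).card : ℝ) ≤
        ε * (sysZ ι e (η / 2 * H / Q)).card) :
    (((sysZ ι e H₁).filter (fun f => GoodV e m w γ η H Q T f ∧ q f)).card : ℝ) ≤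
      ε * (sysZ ι e (2 * H₁)).card := by
  obtain ⟨G', hG'⟩ : ∃ G', G' = sysZ ι e (η / 2 * H / Q) := ⟨_, rfl⟩
  rw [← hG'] at hcl
  have hQr : (0:ℝ) < Q := by exact_mod_cast hQ
  have hA0 : 0 ≤ η / 2 * H / Q := by positivity
  have hQA : |((Q : ℤ) : ℝ)| * (η / 2 * H / Q) = η / 2 * H := by
    rw [Int.cast_natCast, abs_of_pos hQr]
    field_simp
  have hG0 : (0:ℝ) < G'.card := by
    rw [hG', card_sysZ]
    exact_mod_cast Finset.prod_pos fun j _ => card_forms_pos (ι := ι) (e j + 2) hA0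
  have h1 : ((sysZ ι e H₁).filter (fun f => GoodV e m w γ η H Q T f ∧ q f)).card *
      G'.card ≤
      ∑ f ∈ (sysZ ι e (2 * H₁)).filter (fun f => ClassV e m w γ η H Q T f),
        (G'.filter (fun g => q (fun j => f j + MvPolynomial.C (Q : ℤ) * g j))).card := by
    rw [← Finset.card_product, ← Finset.card_sigma]
    apply Finset.card_le_card_of_injOn
      (fun r => (⟨fun j => r.1 j - MvPolynomial.C (Q : ℤ) * r.2 j, r.2⟩ :
        (_ : Fin 1 → MvPolynomial ι ℤ) × (Fin 1 → MvPolynomial ι ℤ)))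
    · rintro ⟨f, g⟩ hr
      simp only [Finset.coe_product, Set.mem_prod, Finset.mem_coe, Finset.mem_filter] at hr
      obtain ⟨⟨h1, h2, h3⟩, h4⟩ := hr
      simp only [Finset.mem_coe, Finset.mem_sigma, Finset.mem_filter]
      have hg : ∀ j, IsF (e j + 2) (η / 2 * H / Q) (g j) := by rw [hG'] at h4; exact mem_sysZ.mp h4
      have hcd := h2.shift hQ hγ hH hη hη1 hCf hηC hCf0 hg
      refine ⟨⟨mem_sysZ.mpr ?_, hcd⟩, h4, ?_⟩
      · intro j
        have h5 := (hg j).C_mul (Q : ℤ)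
        rw [hQA] at h5
        exact ((mem_sysZ.mp h1 j).sub h5).mono (by linarith)
      · have : (fun j => f j - MvPolynomial.C (Q : ℤ) * g j + MvPolynomial.C (Q : ℤ) * g j) = f := by
          funext j
          ring
        rw [this]
        exact h3
    · rintro ⟨f, g⟩ _ ⟨f', g'⟩ _ heq
      simp only [Sigma.mk.injEq] at heq
      obtain ⟨h1, h2⟩ := heq
      have h2' : g = g' := eq_of_heq h2
      subst h2'
      have : f = f' := by
        funext j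
        have := congrFun h1 j
        exact sub_left_injective this
      rw [this]
  have h2 : (((sysZ ι e H₁).filter (fun f => GoodV e m w γ η H Q T f ∧ q f)).card : ℝ) *
      G'.card ≤ (ε * (sysZ ι e (2 * H₁)).card) * G'.card := by
    have h3 := (Nat.cast_le (α := ℝ)).mpr h1
    push_cast at h3
    refine h3.trans ?_
    calc _ ≤ ((sysZ ι e (2 * H₁)).filter
            (fun f => ClassV e m w γ η H Q T f)).card • (ε * (G'.card : ℝ)) :=
          Finset.sum_le_card_nsmul _ _ _ (fun f hf => hcl f (Finset.mem_filter.mp hf).2)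
      _ = (((sysZ ι e (2 * H₁)).filter
            (fun f => ClassV e m w γ η H Q T f)).card : ℝ) * (ε * (G'.card : ℝ)) := by
          rw [nsmul_eq_mul]
      _ ≤ ((sysZ ι e (2 * H₁)).card : ℝ) * (ε * (G'.card : ℝ)) := by
          apply mul_le_mul_of_nonneg_right _ (by positivity)
          exact_mod_cast Finset.card_filter_le _ _
      _ = _ := by ring
  exact le_of_mul_le_mul_right h2 hG0

end Pool.Agent.K6.H67.CW
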