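import Pool.Agent.R465.CV.Pad
import Pool.Agent.R465.CV.Real
import Pool.Agent.Y716.Q.WA

/-!
# Cyclic covers, weak approximation: the `p`-adic data
-/

set_option autoImplicit false

namespace Pool.Agent.K6.H67.CW

open Pool.Agent.Y716.Q Pool.Agent.Y716.C Pool.Agent.Y813.C5 Pool.Agent.R465.CV

variable {ι : Type*} [Fintype ι] {s : ℕ}

/-- The `p`-adic data of a system from one given non-degenerate approximate zero at each prime. -/
theorem stable_ptT (w ℓ : ℕ) (f : Fin s → MvPolynomial ι ℤ) (rP : ℕ → ι) (xP : ℕ → ι → ℤ)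
    (hfin : ∀ p ∈ primesUpTo w, xP p (rP p) = 1 ∧
      (∀ j, (p : ℤ) ^ (2 * ℓ + 1) ∣ MvPolynomial.eval (xP p) (f j)) ∧
      ∀ (j₀ : Fin s) (l : Fin s → ℤ), l j₀ = 1 →
        ¬ ∀ i, (p : ℤ) ^ ℓ ∣ ∑ j, l j * jac f (xP p) j i) :
    ∃ (J : ℕ) (xc : ι → ℤ),
      PDataS w f ((∏ p ∈ primesUpTo w, p) ^ (ℓ + 1)) J xc ∧
      (∏ p ∈ primesUpTo w, p) ^ (ℓ + 1) * J = (∏ p ∈ primesUpTo w, p) ^ (2 * ℓ + 1) ∧
      ∀ p ∈ primesUpTo w, ∀ i, (p : ℤ) ^ (2 * ℓ + 1) ∣ xc i - xP p i := by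
  classical
  have hr : ∀ p ∈ primesUpTo w, xP p (rP p) = 1 := fun p hp => (hfin p hp).1
  have hval := fun p hp => (hfin p hp).2.1
  have hnd := fun p hp => (hfin p hp).2.2
  have hcopZ : ∀ p ∈ primesUpTo w, ∀ q ∈ primesUpTo w, p ≠ q → ∀ a b : ℕ,
      IsCoprime ((p : ℤ) ^ a) ((q : ℤ) ^ b) := by
    intro p hp q hq hne a b
    exact (Nat.isCoprime_iff_coprime.mpr (primes_coprime hp hq hne)).pow
  have hcrt : ∀ i, ∃ y : ℤ, ∀ p ∈ primesUpTo w, (p : ℤ) ^ (2 * ℓ + 1) ∣ y - xP p i := by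
    intro i
    have := Ideal.exists_forall_sub_mem_ideal (R := ℤ)
      (I := fun p : primesUpTo w => Ideal.span {((p : ℕ) : ℤ) ^ (2 * ℓ + 1)}) (by
        intro p q hpq
        simp only [Function.onFun]
        rw [Ideal.isCoprime_span_singleton_iff]
        exact hcopZ _ p.2 _ q.2 (fun h => hpq (Subtype.ext h)) _ _) (fun p => xP p i)
    obtain ⟨y, hy⟩ := this
    exact ⟨y, fun p hp => Ideal.mem_span_singleton.mp (hy ⟨p, hp⟩)⟩
  choose xc hxc using hcrt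
  have hxc' : ∀ p ∈ primesUpTo w, ∀ i, (p : ℤ) ^ (2 * ℓ + 1) ∣ xc i - xP p i :=
    fun p hp i => hxc i p hp
  obtain ⟨W, hW⟩ : ∃ W : ℕ, W = ∏ p ∈ primesUpTo w, p := ⟨_, rfl⟩
  have hW0 : 0 < W := by
    rw [hW]
    exact Finset.prod_pos (fun p hp => (mem_primesUpTo.mp hp).2.pos)
  have hpW : ∀ p ∈ primesUpTo w, p ∣ W := fun p hp => by
    rw [hW]; exact Finset.dvd_prod_of_mem (fun p => p) hp
  have hSJ : W ^ (ℓ + 1) * W ^ ℓ = (∏ p ∈ primesUpTo w, p) ^ (2 * ℓ + 1) := by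
    rw [← hW, ← pow_add]; congr 1; ring
  rw [← hW] at hSJ ⊢
  refine ⟨W ^ ℓ, xc, ?_, hSJ, hxc'⟩
  refine { hS := pow_pos hW0 _, hJ := pow_pos hW0 _, hJS := pow_dvd_pow _ (Nat.le_succ _),
           hval := ?_, hPJ := ?_, hsurj := ?_, hprim := ?_, hSW := ?_ }
  · intro j
    rw [hSJ, hW, ← Finset.prod_pow]
    push_cast
    apply Finset.prod_dvd_of_coprime
    · intro p hp q hq hne
      exact hcopZ p hp q hq hne _ _
    intro p hp
    have := dvd_add (Pool.Agent.Y67.HP.eval_congr_dvd' (f j) (hxc' p hp)) (hval p hp j)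
    simpa using this
  · intro p hp1 hp2
    rw [pow_succ']
    exact Nat.mul_dvd_mul (hpW p (mem_primesUpTo.mpr ⟨hp2, hp1⟩)) (dvd_refl _)
  · intro p hp1 hp2 b
    have hp : p ∈ primesUpTo w := mem_primesUpTo.mpr ⟨hp2, hp1⟩
    have hcong : ∀ j i, (p : ℤ) ^ (2 * ℓ + 1) ∣ jac f xc j i - jac f (xP p) j i := fun j i =>
      Pool.Agent.Y67.HP.eval_congr_dvd' _ (hxc' p hp)
    obtain ⟨z, hz⟩ := surj (jac f xc) hp1 ℓ (by
      intro j₀ l hl hdiv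
      refine hnd p hp j₀ l hl ?_
      intro i
      have h1 : (p : ℤ) ^ ℓ ∣ ∑ j, l j * (jac f xc j i - jac f (xP p) j i) :=
        Finset.dvd_sum fun j _ => Dvd.dvd.mul_left
          ((pow_dvd_pow (p : ℤ) (by omega : ℓ ≤ 2 * ℓ + 1)).trans (hcong j i)) _
      have h2 : ∑ j, l j * jac f (xP p) j i = ∑ j, l j * jac f xc j i -
          ∑ j, l j * (jac f xc j i - jac f (xP p) j i) := by
        rw [← Finset.sum_sub_distrib]
        exact Finset.sum_congr rfl fun j _ => by ring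
      rw [h2]
      exact dvd_sub (hdiv i) h1) b
    obtain ⟨V, hV⟩ := hpW p hp
    refine ⟨fun i => (V : ℤ) ^ ℓ * z i, fun j => ?_⟩
    obtain ⟨y, hy⟩ := hz j
    refine ⟨y, ?_⟩
    have h1 : ∑ i, jac f xc j i * ((V : ℤ) ^ ℓ * z i) = (V : ℤ) ^ ℓ * ∑ i, jac f xc j i * z i := by
      rw [Finset.mul_sum]
      exact Finset.sum_congr rfl fun i _ => by ring
    have h2 : ∑ i, jac f xc j i * z i = p ^ ℓ * b j + (p : ℤ) ^ (ℓ + 1) * y := by
      rw [← hy]; ring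
    rw [h1, h2, hV]
    push_cast
    ring
  · intro p hp1 hp2
    have hp : p ∈ primesUpTo w := mem_primesUpTo.mpr ⟨hp2, hp1⟩
    refine ⟨rP p, fun hd => ?_⟩
    have h1 := (dvd_pow_self (p : ℤ) (by omega : 2 * ℓ + 1 ≠ 0)).trans (hxc' p hp (rP p))
    rw [hr p hp] at h1
    have := dvd_sub hd h1
    rw [sub_sub_cancel] at this
    have h3 : (p : ℕ) ∣ 1 := by exact_mod_cast this
    exact hp1.one_lt.ne' (Nat.dvd_one.mp h3)
  · intro p hp1 hpS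
    have hpS' := hp1.dvd_of_dvd_pow hpS
    rw [hW] at hpS'
    obtain ⟨q, hq, hpq⟩ := (Prime.dvd_finsetProd_iff hp1.prime _).mp hpS'
    have h2 := (mem_primesUpTo.mp hq)
    have h3 := (Nat.prime_dvd_prime_iff_eq hp1 h2.2).mp hpq
    rw [h3]; exact h2.1


/-- the auxiliary form at a prime, with its value -/
theorem local_formT (κ : ℕ) {m : ℕ} (hm : 1 ≤ m) {p ℓ : ℕ} (hp : p.Prime) (F : MvPolynomial ι ℤ)
    {r s : ι} (hs : s ≠ r) {z : ι → ℤ} (hz : z r = 1) {y : ℤ}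
    (hy : (p : ℤ) ^ (2 * (ℓ + m) + 1) ∣ MvPolynomial.eval z F - y ^ m)
    (hbad : ¬ ((p : ℤ) ^ ℓ ∣ MvPolynomial.eval z F ∧
      ∀ i, (p : ℤ) ^ ℓ ∣ MvPolynomial.eval z (MvPolynomial.pderiv i F))) :
    ∃ Cp : ι → ι → ℤ, ∀ C : ι → ι → ℤ, (∀ a b, (p : ℤ) ^ (2 * (ℓ + m) + 1) ∣ C a b - Cp a b) →
      (p : ℤ) ^ (2 * (ℓ + m) + 1) ∣ MvPolynomial.eval z (F - GC κ C ^ m) ∧
      (∃ i, ¬ (p : ℤ) ^ (ℓ + m) ∣
        MvPolynomial.eval z (MvPolynomial.pderiv i (F - GC κ C ^ m))) ∧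
      (p : ℤ) ^ (2 * (ℓ + m) + 1) ∣ MvPolynomial.eval z (GC κ C) - y := by
  obtain ⟨t, i, ht⟩ := local_choice κ hm hp F hs hz hy hbad
  refine ⟨spec r s y t z, fun C hC => ?_⟩
  have h1 := val_congr κ hC z
  rw [val_spec κ hs y t hz] at h1
  have h2 := grad_congr κ hC z i
  have hC' : (fun a b => ((C a b : ℤ) : ℤ)) = C := rfl
  refine ⟨?_, ?_, ?_⟩
  · rw [map_sub, map_pow, eval_eq_aeval z (GC κ C), aeval_GC]
    simp only [Int.cast_id]
    have h3 : (p : ℤ) ^ (2 * (ℓ + m) + 1) ∣ y ^ m - val κ C z ^ m := by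
      refine dvd_trans ?_ (sub_dvd_pow_sub_pow _ _ _)
      rw [← dvd_neg, neg_sub]; exact h1
    have := dvd_add hy h3
    rwa [sub_add_sub_cancel] at this
  · refine ⟨i, fun hd => ht ?_⟩
    rw [eval_eq_aeval, aeval_pderiv_sub_pow, ← eval_eq_aeval, aeval_GC, aeval_pderiv_GC] at hd
    simp only [Int.cast_id] at hd
    have h3 : (p : ℤ) ^ (2 * (ℓ + m) + 1) ∣ val κ C z ^ (m - 1) - y ^ (m - 1) :=
      h1.trans (sub_dvd_pow_sub_pow _ _ _)
    have h4 : (p : ℤ) ^ (2 * (ℓ + m) + 1) ∣ m * val κ C z ^ (m - 1) * grad κ C z i -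
        m * y ^ (m - 1) * grad κ (spec r s y t z) z i := by
      have h5 : (m : ℤ) * val κ C z ^ (m - 1) * grad κ C z i -
          m * y ^ (m - 1) * grad κ (spec r s y t z) z i =
          (val κ C z ^ (m - 1) - y ^ (m - 1)) * (m * grad κ C z i) +
          (grad κ C z i - grad κ (spec r s y t z) z i) * (m * y ^ (m - 1)) := by ring
      rw [h5]
      exact dvd_add (h3.mul_right _) (h2.mul_right _)
    have h5 := (pow_dvd_pow (p : ℤ) (by omega : ℓ + m ≤ 2 * (ℓ + m) + 1)).trans h4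
    have := dvd_add hd h5
    rwa [sub_add_sub_cancel] at this
  · rw [eval_eq_aeval z (GC κ C), aeval_GC]
    simp only [Int.cast_id]
    exact h1

end Pool.Agent.K6.H67.CW
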