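import Pool.Agent.R465.CV.Real

/-!
# Cyclic covers, weak approximation: the auxiliary form at the real place
-/

set_option autoImplicit false

namespace Pool.Agent.K6.H67.CW

open MvPolynomial Pool.Agent.R465.CV

variable {ι : Type*} [Fintype ι]

theorem real_formT (κ : ℕ) {m : ℕ} (hm : 2 ≤ m) {K₁ γ₂ : ℝ} (hK₁ : 1 ≤ K₁) (hγ₂ : 0 < γ₂) :
    ∃ γ₃ : ℝ, 0 < γ₃ ∧ ∀ τ : ℝ, 0 < τ → ∀ Q : ℝ, 0 ≤ Q → ∃ h₀ : ℝ, 1 ≤ h₀ ∧ ∀ h : ℝ, h₀ ≤ h →
      ∀ (F : MvPolynomial ι ℤ) (r s : ι), s ≠ r → ∀ ξ : ι → ℝ, ξ r = 1 → (∀ i, |ξ i| ≤ 1) →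
      ∀ y : ℝ, y ^ m = MvPolynomial.aeval ξ F → |y| ≤ K₁ * h →
      ¬ (|MvPolynomial.aeval ξ F| ≤ γ₂ * h ^ m ∧
        ∀ i, |MvPolynomial.aeval ξ (MvPolynomial.pderiv i F)| ≤ γ₂ * h ^ m) →
      ∃ CR : ι → ι → ℝ, ∀ C : ι → ι → ℤ, (∀ a b, |((C a b : ℤ) : ℝ) - CR a b| ≤ Q) →
        |MvPolynomial.aeval ξ (F - GC κ C ^ m)| ≤ τ * h ^ m ∧
        (∃ i, γ₃ * h ^ m ≤ |MvPolynomial.aeval ξ (MvPolynomial.pderiv i (F - GC κ C ^ m))|) ∧
        (∑ a, ∑ b, |((C a b : ℤ) : ℝ)|) ≤ (Fintype.card ι) ^ 2 * (K₁ + 2) * h ∧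
        |MvPolynomial.aeval ξ (GC κ C) - y| ≤ τ * h := by
  classical
  have hm1 : (1 : ℝ) ≤ m := by exact_mod_cast (by omega : 1 ≤ m)
  have hmm : m - 1 + 1 = m := by omega
  have hκ : (0 : ℝ) ≤ κ := Nat.cast_nonneg _
  obtain ⟨k, hk⟩ : ∃ k : ℝ, k = (Fintype.card ι : ℝ) := ⟨_, rfl⟩
  have hk0 : 0 ≤ k := by rw [hk]; positivity
  obtain ⟨γ₁, hγ₁⟩ : ∃ γ₁ : ℝ, γ₁ = min 1 (γ₂ / (2 * (m * (κ + 1)))) := ⟨_, rfl⟩
  have hden : 0 < 2 * ((m : ℝ) * (κ + 1)) := by positivity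
  have hγ₁0 : 0 < γ₁ := by rw [hγ₁]; exact lt_min one_pos (by positivity)
  have hγ₁1 : γ₁ ≤ 1 := by rw [hγ₁]; exact min_le_left _ _
  have hγ₁m : γ₁ ^ m * (2 * (m * (κ + 1))) ≤ γ₂ := by
    have h1 : γ₁ ≤ γ₂ / (2 * (m * (κ + 1))) := by rw [hγ₁]; exact min_le_right _ _
    rw [le_div_iff₀ hden] at h1
    have h2 : γ₁ ^ m ≤ γ₁ := pow_le_of_le_one hγ₁0.le hγ₁1 (by omega)
    exact (mul_le_mul_of_nonneg_right h2 hden.le).trans h1
  obtain ⟨γ₄, hγ₄⟩ : ∃ γ₄ : ℝ, γ₄ = min (γ₁ ^ (m - 1) / 2) (γ₂ / 2) := ⟨_, rfl⟩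
  have hγ₄0 : 0 < γ₄ := by rw [hγ₄]; exact lt_min (by positivity) (by positivity)
  refine ⟨γ₄ / 2, by positivity, fun τ hτ Q hQ => ?_⟩
  obtain ⟨τ', hτ'⟩ : ∃ τ' : ℝ, τ' = min τ (γ₄ / 2) := ⟨_, rfl⟩
  have hτ'0 : 0 < τ' := by rw [hτ']; exact lt_min hτ (by positivity)
  have hτ'1 : τ' ≤ τ := by rw [hτ']; exact min_le_left _ _
  have hτ'2 : τ' ≤ γ₄ / 2 := by rw [hτ']; exact min_le_right _ _
  obtain ⟨Q', hQ'⟩ : ∃ Q' : ℝ, Q' = k ^ 2 * ((κ + 1) * Q) := ⟨_, rfl⟩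
  have hQ'0 : 0 ≤ Q' := by rw [hQ']; positivity
  obtain ⟨K, hK⟩ : ∃ K : ℝ, K = k ^ 2 * ((κ + 1) * (K₁ + 1)) + K₁ + 1 := ⟨_, rfl⟩
  have hK0 : 0 ≤ K := by rw [hK]; positivity
  refine ⟨max (max (max 1 Q) (max Q' (m ^ 2 * Q' * K ^ (m - 1) / τ'))) (Q' / τ),
    ((le_max_left _ _).trans (le_max_left _ _)).trans (le_max_left _ _), fun h hh0 => ?_⟩
  have hh := (le_max_left _ _).trans hh0
  have hhτ : Q' / τ ≤ h := (le_max_right _ _).trans hh0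
  have hh1 : 1 ≤ h := (le_max_left _ _).trans ((le_max_left _ _).trans hh)
  have hhQ : Q ≤ h := (le_max_right _ _).trans ((le_max_left _ _).trans hh)
  have hhQ' : Q' ≤ h := (le_max_left _ _).trans ((le_max_right _ _).trans hh)
  have hhK : m ^ 2 * Q' * K ^ (m - 1) / τ' ≤ h :=
    (le_max_right _ _).trans ((le_max_right _ _).trans hh)
  have hh0 : 0 < h := by linarith
  intro F r s hs ξ hξr hξ y hy hyK hbad
  obtain ⟨t, ht, i, hi⟩ := real_choice κ hm F hs hξr hh0 hγ₁0 hγ₁m hy hbad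
  rw [← hγ₄] at hi
  have ht' : |t| ≤ h := by
    rcases ht with rfl | rfl
    · rw [abs_zero]; exact hh0.le
    · rw [abs_of_pos hh0]
  have hspec : ∀ a b, |spec r s y t ξ a b| ≤ (K₁ + 1) * h := by
    intro a b
    have e1 : 0 ≤ (K₁ + 1) * h := by positivity
    have e2 : |t| ≤ (K₁ + 1) * h := by
      have e5 : 0 ≤ K₁ * h := by positivity
      linarith only [ht', e5]
    have e3 : |y - t * ξ s| ≤ (K₁ + 1) * h := by
      refine (abs_sub _ _).trans ?_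
      rw [abs_mul]
      have e4 : |t| * |ξ s| ≤ h * 1 := mul_le_mul ht' (hξ s) (abs_nonneg _) hh0.le
      linarith only [e4, hyK]
    unfold spec
    split_ifs
    · exact e3
    · exact e2
    · rw [abs_zero]; exact e1
    · rw [abs_zero]; exact e1
  have hKh : K * h = k ^ 2 * ((κ + 1) * (K₁ + 1)) * h + K₁ * h + h := by rw [hK]; ring
  refine ⟨spec r s y t ξ, fun C hC => ?_⟩
  have hv := val_close κ hC hξ
  rw [val_spec κ hs y t hξr, ← hk] at hv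
  have hg := grad_close κ hC hξ i
  rw [← hk, ← hQ'] at hg
  obtain ⟨v, hv'⟩ : ∃ v : ℝ, v = val κ (fun a b => ((C a b : ℤ) : ℝ)) ξ := ⟨_, rfl⟩
  obtain ⟨g, hg'⟩ : ∃ g : ℝ, g = grad κ (fun a b => ((C a b : ℤ) : ℝ)) ξ i := ⟨_, rfl⟩
  obtain ⟨g₀, hg₀⟩ : ∃ g₀ : ℝ, g₀ = grad κ (spec r s y t ξ) ξ i := ⟨_, rfl⟩
  rw [← hv'] at hv
  rw [← hg', ← hg₀] at hg
  rw [← hg₀] at hi
  have hvQ : |v - y| ≤ Q' := by
    refine hv.trans ?_
    rw [hQ']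
    have : Q ≤ (κ + 1) * Q := by
      have e5 : 0 ≤ κ * Q := by positivity
      linarith only [e5]
    exact mul_le_mul_of_nonneg_left this (by positivity)
  have hg₀b : |g₀| ≤ k ^ 2 * ((κ + 1) * (K₁ + 1)) * h := by
    have h1 := grad_close κ (C := spec r s y t ξ) (C' := fun _ _ => 0) (Q := (K₁ + 1) * h)
      (fun a b => by rw [sub_zero]; exact hspec a b) hξ i
    have h2 : grad κ (fun _ _ => (0 : ℝ)) ξ i = 0 := by
      unfold grad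
      simp
    rw [h2, sub_zero, ← hg₀, ← hk] at h1
    linarith only [h1]
  have hvb : |v| ≤ K * h := by
    have h1 : |v| ≤ |v - y| + |y| := by
      have := abs_add_le (v - y) y
      rwa [sub_add_cancel] at this
    have h2 : 0 ≤ k ^ 2 * ((κ + 1) * (K₁ + 1)) * h := by positivity
    rw [hKh]
    linarith only [h1, h2, hvQ, hhQ', hyK]
  have hyb : |y| ≤ K * h := by
    have h2 : 0 ≤ k ^ 2 * ((κ + 1) * (K₁ + 1)) * h := by positivity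
    rw [hKh]
    linarith only [h2, hyK, hh0]
  have hgb : |g| ≤ K * h := by
    have h1 : |g| ≤ |g - g₀| + |g₀| := by
      have := abs_add_le (g - g₀) g₀
      rwa [sub_add_cancel] at this
    have h2 : 0 ≤ K₁ * h := by positivity
    rw [hKh]
    linarith only [h1, h2, hg, hhQ', hg₀b]
  obtain ⟨hp1, hp2⟩ := pow_close hm hh0 hK0 hvb hyb hgb hvQ hg
  have hb : (m : ℝ) ^ 2 * Q' * K ^ (m - 1) * h ^ (m - 1) ≤ τ' * h ^ m := by
    rw [div_le_iff₀ hτ'0] at hhK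
    have h1 : (0 : ℝ) ≤ h ^ (m - 1) := by positivity
    calc _ ≤ (h * τ') * h ^ (m - 1) := mul_le_mul_of_nonneg_right hhK h1
      _ = τ' * (h ^ (m - 1) * h) := by ring
      _ = τ' * h ^ m := by rw [← pow_succ, hmm]
  have hhm : 0 < h ^ m := by positivity
  refine ⟨?_, ⟨i, ?_⟩, ?_, ?_⟩
  · rw [map_sub, map_pow, aeval_GC, ← hv', ← hy, abs_sub_comm]
    exact (hp1.trans hb).trans (mul_le_mul_of_nonneg_right hτ'1 hhm.le)
  · rw [aeval_pderiv_sub_pow, aeval_GC, aeval_pderiv_GC, ← hv', ← hg']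
    have h1 := hp2.trans hb
    have h2 := mul_le_mul_of_nonneg_right hτ'2 hhm.le
    have h3 := abs_sub_abs_le_abs_sub
      (MvPolynomial.aeval ξ (MvPolynomial.pderiv i F) - m * y ^ (m - 1) * g₀)
      (m * v ^ (m - 1) * g - m * y ^ (m - 1) * g₀)
    have h4 : MvPolynomial.aeval ξ (MvPolynomial.pderiv i F) - m * y ^ (m - 1) * g₀ -
        (m * v ^ (m - 1) * g - m * y ^ (m - 1) * g₀) =
        MvPolynomial.aeval ξ (MvPolynomial.pderiv i F) - m * v ^ (m - 1) * g := by ring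
    rw [h4] at h3
    linarith only [h1, h2, h3, hi]
  · have h1 : ∀ a ∈ (Finset.univ : Finset ι), ∑ b, |((C a b : ℤ) : ℝ)| ≤ k * ((K₁ + 2) * h) := by
      intro a _
      have h2 : ∀ b ∈ (Finset.univ : Finset ι), |((C a b : ℤ) : ℝ)| ≤ (K₁ + 2) * h := by
        intro b _
        have h3 := abs_add_le (((C a b : ℤ) : ℝ) - spec r s y t ξ a b) (spec r s y t ξ a b)
        rw [sub_add_cancel] at h3
        have h4 := hC a b
        have h5 := hspec a b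
        linarith only [h3, h4, h5, hhQ]
      refine (Finset.sum_le_sum h2).trans (le_of_eq ?_)
      rw [Finset.sum_const, Finset.card_univ, nsmul_eq_mul, hk]
    refine (Finset.sum_le_sum h1).trans (le_of_eq ?_)
    rw [Finset.sum_const, Finset.card_univ, nsmul_eq_mul, ← hk]
    ring
  · rw [aeval_GC, ← hv']
    rw [div_le_iff₀ hτ] at hhτ
    linarith only [hhτ, hvQ]

/-- the values of the auxiliary form near a point -/
theorem val_lip (κ : ℕ) {C : ι → ι → ℝ} {B η₀ P : ℝ} (hB : ∑ a, ∑ b, |C a b| ≤ B)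
    (hη0 : 0 ≤ η₀) (hη1 : η₀ ≤ 1) (hP : 0 < P) {x ξ : ι → ℝ} (hξ : ∀ i, |ξ i| ≤ 1)
    (hx : ∀ i, |x i - P * ξ i| ≤ η₀ * P) :
    |val κ C x - P ^ (κ + 1) * val κ C ξ| ≤ B * ((κ + 1) * 2 ^ κ * η₀) * P ^ (κ + 1) := by
  have hPξ : ∀ i, |P * ξ i| ≤ P := by
    intro i
    rw [abs_mul, abs_of_pos hP]
    exact mul_le_of_le_one_right hP.le (hξ i)
  have hx2 : ∀ i, |x i| ≤ 2 * P := by
    intro i
    have h1 := abs_add_le (x i - P * ξ i) (P * ξ i)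
    rw [sub_add_cancel] at h1
    have h2 := hx i
    have h3 := hPξ i
    have h4 : η₀ * P ≤ 1 * P := mul_le_mul_of_nonneg_right hη1 hP.le
    linarith
  have hκ : (0 : ℝ) ≤ κ := Nat.cast_nonneg _
  have hterm : ∀ a b, |C a b * (x a * x b ^ κ) - P ^ (κ + 1) * (C a b * (ξ a * ξ b ^ κ))| ≤
      |C a b| * (((κ + 1) * 2 ^ κ * η₀) * P ^ (κ + 1)) := by
    intro a b
    have e : C a b * (x a * x b ^ κ) - P ^ (κ + 1) * (C a b * (ξ a * ξ b ^ κ)) =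
        C a b * ((x a - P * ξ a) * x b ^ κ + (P * ξ a) * (x b ^ κ - (P * ξ b) ^ κ)) := by ring
    rw [e, abs_mul]
    apply mul_le_mul_of_nonneg_left _ (abs_nonneg _)
    refine (abs_add_le _ _).trans ?_
    rw [abs_mul, abs_mul, abs_pow]
    have h1 : |x b| ^ κ ≤ (2 * P) ^ κ := pow_le_pow_left₀ (abs_nonneg _) (hx2 b) _
    have h2 : |x a - P * ξ a| * |x b| ^ κ ≤ (η₀ * P) * (2 * P) ^ κ :=
      mul_le_mul (hx a) h1 (by positivity) (by positivity)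
    have h3 : |x b ^ κ - (P * ξ b) ^ κ| ≤ (η₀ * P) * κ * (2 * P) ^ (κ - 1) := by
      have h4 := abs_pow_sub_pow_le (x b) (P * ξ b) κ
      refine h4.trans ?_
      have h5 : max |x b| |P * ξ b| ^ (κ - 1) ≤ (2 * P) ^ (κ - 1) :=
        pow_le_pow_left₀ (le_max_of_le_left (abs_nonneg _))
          (max_le (hx2 b) ((hPξ b).trans (by linarith))) _
      apply mul_le_mul _ h5 (by positivity) (by positivity)
      exact mul_le_mul_of_nonneg_right (hx b) hκ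
    have h4 : |P * ξ a| * |x b ^ κ - (P * ξ b) ^ κ| ≤ P * ((η₀ * P) * κ * (2 * P) ^ (κ - 1)) :=
      mul_le_mul (hPξ a) h3 (abs_nonneg _) hP.le
    have h5 : P * ((η₀ * P) * κ * (2 * P) ^ (κ - 1)) ≤ κ * (2 ^ κ * η₀ * P ^ (κ + 1)) := by
      rcases Nat.eq_zero_or_pos κ with h0 | h0
      · subst h0; simp
      · have h6 : (2 * P) ^ κ = (2 * P) ^ (κ - 1) * (2 * P) := by
          rw [← pow_succ, show κ - 1 + 1 = κ by omega]
        have h7 : 0 ≤ (2 * P) ^ (κ - 1) := by positivity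
        have h8 : κ * (2 ^ κ * η₀ * P ^ (κ + 1)) = κ * η₀ * P * (2 * P) ^ κ := by
          rw [mul_pow]; ring
        rw [h8, h6]
        have h9 : 0 ≤ κ * η₀ * P * (2 * P) ^ (κ - 1) * P := by positivity
        linarith
    have h6 : (η₀ * P) * (2 * P) ^ κ = 2 ^ κ * η₀ * P ^ (κ + 1) := by rw [mul_pow]; ring
    calc _ ≤ (η₀ * P) * (2 * P) ^ κ + P * ((η₀ * P) * κ * (2 * P) ^ (κ - 1)) :=
          add_le_add h2 h4
      _ ≤ 2 ^ κ * η₀ * P ^ (κ + 1) + κ * (2 ^ κ * η₀ * P ^ (κ + 1)) := by linarith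
      _ = _ := by ring
  have hX : 0 ≤ ((κ + 1) * 2 ^ κ * η₀) * P ^ (κ + 1) := by positivity
  have e0 : val κ C x - P ^ (κ + 1) * val κ C ξ =
      ∑ a, ∑ b, (C a b * (x a * x b ^ κ) - P ^ (κ + 1) * (C a b * (ξ a * ξ b ^ κ))) := by
    unfold val
    rw [Finset.mul_sum, ← Finset.sum_sub_distrib]
    refine Finset.sum_congr rfl fun a _ => ?_
    rw [Finset.mul_sum, ← Finset.sum_sub_distrib]
  rw [e0]
  calc _ ≤ ∑ a, |∑ b, (C a b * (x a * x b ^ κ) - P ^ (κ + 1) * (C a b * (ξ a * ξ b ^ κ)))| :=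
        Finset.abs_sum_le_sum_abs _ _
    _ ≤ ∑ a, ∑ b, |C a b| * (((κ + 1) * 2 ^ κ * η₀) * P ^ (κ + 1)) :=
        Finset.sum_le_sum fun a _ => (Finset.abs_sum_le_sum_abs _ _).trans
          (Finset.sum_le_sum fun b _ => hterm a b)
    _ = (∑ a, ∑ b, |C a b|) * (((κ + 1) * 2 ^ κ * η₀) * P ^ (κ + 1)) := by
        rw [Finset.sum_mul]
        refine Finset.sum_congr rfl fun a _ => ?_
        rw [Finset.sum_mul]
    _ ≤ B * (((κ + 1) * 2 ^ κ * η₀) * P ^ (κ + 1)) := mul_le_mul_of_nonneg_right hB hX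
    _ = _ := by ring

end Pool.Agent.K6.H67.CW
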