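import Pool.Agent.R465.CV.Exc
import Pool.Agent.K6.H67.CW.Avg
import Pool.Agent.K6.H67.CW.Pad
import Pool.Agent.K6.H67.CW.Real

/-!
# Cyclic covers, weak approximation: the number of exceptional forms
-/

set_option autoImplicit false

namespace Pool.Agent.K6.H67.CW

open Pool.Agent.Y716.Q Pool.Agent.Y716.C Pool.Agent.Y363.C7 Pool.Agent.Y813.C5
  Pool.Agent.R465.CV

variable {ι : Type*} [Fintype ι]

/-- approximate points of the cover `y ^ m = f 0` at all places, close to a target -/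
def LocSolW (m N : ℕ) (c : ι → ℤ) (b : ℤ) (ζ : ι → ℝ) (ω δ h : ℝ)
    (f : Fin 1 → MvPolynomial ι ℤ) : Prop :=
  (∀ p : ℕ, p.Prime → ∀ E : ℕ, ∃ (r : ι) (x : ι → ℤ) (y : ℤ), x r = 1 ∧
    (p : ℤ) ^ E ∣ MvPolynomial.eval x (f 0) - y ^ m ∧
      ∀ a : ℕ, p ^ a ∣ N → (∀ i, (p : ℤ) ^ a ∣ x i - c i) ∧ (p : ℤ) ^ a ∣ y - b) ∧
  ∃ (r : ι) (ξ : ι → ℝ) (y : ℝ), ξ r = 1 ∧ (∀ i, |ξ i| ≤ 1) ∧ (∀ i, |ξ i - ζ i| ≤ δ) ∧
    |y - ω * h| ≤ δ * h ∧ y ^ m = MvPolynomial.aeval ξ (f 0)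

/-- integral points of the cover close to a target -/
def SolTW (m k N : ℕ) (c : ι → ℤ) (b : ℤ) (ζ : ι → ℝ) (ω δ h : ℝ)
    (f : Fin 1 → MvPolynomial ι ℤ) : Prop :=
  ∃ (x : ι → ℤ) (y : ℤ), Prim x ∧ y ^ m = MvPolynomial.eval x (f 0) ∧
    (∀ i, (N : ℤ) ∣ x i - c i) ∧ (N : ℤ) ∣ y - b ∧
    ∃ P : ℝ, 0 < P ∧ (∀ i, |(x i : ℝ) - P * ζ i| ≤ 2 * δ * P) ∧
      |(y : ℝ) - P ^ k * (ω * h)| ≤ 2 * δ * (P ^ k * h)

/-- the auxiliary form and the local data are close to the target -/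
def Tgt (κ N : ℕ) (c : ι → ℤ) (b : ℤ) (ζ : ι → ℝ) (ω δ h B : ℝ) (G : MvPolynomial ι ℤ) (S : ℕ)
    (xc : ι → ℤ) (ξ : ι → ℝ) : Prop :=
  ∃ C : ι → ι → ℤ, G = GC κ C ∧ (N : ℤ) ∣ (S : ℤ) ∧ (∀ i, (N : ℤ) ∣ xc i - c i) ∧
    (N : ℤ) ∣ MvPolynomial.eval xc G - b ∧ (∀ i, |ξ i - ζ i| ≤ δ) ∧
    |MvPolynomial.aeval ξ G - ω * h| ≤ 3 / 2 * δ * h ∧
    ∑ a, ∑ b, |((C a b : ℤ) : ℝ)| ≤ B * h

/-- non-degenerate forms with local points have non-degenerate data -/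
theorem good_ofV {m κ : ℕ} (hm : 2 ≤ m) (hcard : 1 < Fintype.card ι) {e : Fin 1 → ℕ}
    (he : ∀ j, e j + 2 = m * (κ + 1)) {w ℓ N : ℕ} (hN : 1 ≤ N) (hNw : N ≤ w) (hNℓ : N ≤ ℓ)
    {c : ι → ℤ} {b : ℤ} {ζ : ι → ℝ} {ω δ : ℝ} {γ₂ γ₃ C₁ γ η K₁ h : ℝ}
    (hγ₃ : 0 < γ₃) (hγ : 0 < γ) (hC₁ : C₁ = 1 + ((Fintype.card ι) ^ 2 * (K₁ + 2)) ^ m)
    (hC₁1 : 1 ≤ C₁) (hγγ : 2 * γ * C₁ ≤ γ₃) (hη : 0 < η) (hh : 0 < h)
    (hK₁ : K₁ = (mons ι (e 0 + 2)).card) (hK₁1 : 1 ≤ K₁)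
    (hreal : ∀ (F : MvPolynomial ι ℤ) (r s : ι), s ≠ r → ∀ ξ : ι → ℝ, ξ r = 1 →
      (∀ i, |ξ i| ≤ 1) →
      ∀ y : ℝ, y ^ m = MvPolynomial.aeval ξ F → |y| ≤ K₁ * h →
      ¬ (|MvPolynomial.aeval ξ F| ≤ γ₂ * h ^ m ∧
        ∀ i, |MvPolynomial.aeval ξ (MvPolynomial.pderiv i F)| ≤ γ₂ * h ^ m) →
      ∃ CR : ι → ι → ℝ, ∀ C : ι → ι → ℤ, (∀ a b, |((C a b : ℤ) : ℝ) - CR a b| ≤
          (((∏ p ∈ primesUpTo w, p) ^ (2 * (ℓ + m) + 1) : ℕ) : ℝ)) →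
        |MvPolynomial.aeval ξ (F - GC κ C ^ m)| ≤ η / 2 * h ^ m ∧
        (∃ i, γ₃ * h ^ m ≤ |MvPolynomial.aeval ξ (MvPolynomial.pderiv i (F - GC κ C ^ m))|) ∧
        (∑ a, ∑ b, |((C a b : ℤ) : ℝ)|) ≤ (Fintype.card ι) ^ 2 * (K₁ + 2) * h ∧
        |MvPolynomial.aeval ξ (GC κ C) - y| ≤ δ / 2 * h)
    {f : Fin 1 → MvPolynomial ι ℤ} (hf : f ∈ sysZ ι e (h ^ m)) (hels : LocSolW m N c b ζ ω δ h f)
    (hbad : ∀ p ∈ primesUpTo w, ¬ BadAtS (p ^ ℓ) f) (hbadR : ¬ BadRS γ₂ (h ^ m) f) :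
    GoodV e m w γ η (C₁ * h ^ m) ((∏ p ∈ primesUpTo w, p) ^ (2 * (ℓ + m) + 1))
      (Tgt κ N c b ζ ω δ h ((Fintype.card ι) ^ 2 * (K₁ + 2))) f := by
  classical
  haveI : Nonempty ι := Fintype.card_pos_iff.mp (by omega)
  have hf0 := mem_sysZ.mp hf 0
  have hFh : (f 0).IsHomogeneous (m * (κ + 1)) := by
    have := hf0.1
    rwa [he 0] at this
  have hhm : 0 < h ^ m := by positivity
  -- the primes
  have hP : ∀ p ∈ primesUpTo w, ∃ (r : ι) (z : ι → ℤ) (y : ℤ) (Cp : ι → ι → ℤ), z r = 1 ∧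
      (∀ a : ℕ, p ^ a ∣ N → (∀ i, (p : ℤ) ^ a ∣ z i - c i) ∧ (p : ℤ) ^ a ∣ y - b) ∧
      ∀ C : ι → ι → ℤ, (∀ a b, (p : ℤ) ^ (2 * (ℓ + m) + 1) ∣ C a b - Cp a b) →
      (p : ℤ) ^ (2 * (ℓ + m) + 1) ∣ MvPolynomial.eval z (f 0 - GC κ C ^ m) ∧
      (∃ i, ¬ (p : ℤ) ^ (ℓ + m) ∣
        MvPolynomial.eval z (MvPolynomial.pderiv i (f 0 - GC κ C ^ m))) ∧
      (p : ℤ) ^ (2 * (ℓ + m) + 1) ∣ MvPolynomial.eval z (GC κ C) - y := by
    intro p hp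
    have hpp := (mem_primesUpTo.mp hp).2
    obtain ⟨r, z, y, hz, hy, hzy⟩ := hels.1 p hpp (2 * (ℓ + m) + 1)
    obtain ⟨s, hs⟩ := Fintype.exists_ne_of_one_lt_card hcard r
    obtain ⟨Cp, hCp⟩ := local_formT κ (by omega) (ℓ := ℓ) hpp (f 0) hs hz hy (by
      rintro ⟨h1, h2⟩
      apply hbad p hp
      refine ⟨r, z, 0, fun _ => 1, hz, rfl, ?_, ?_⟩
      · intro j
        rw [Subsingleton.elim j 0]
        push_cast
        exact h1
      · intro i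
        rw [Fin.sum_univ_one, one_mul]
        push_cast
        exact h2 i)
    exact ⟨r, z, y, Cp, hz, hzy, hCp⟩
  choose! rP zP yP CP hzP hzyP hCP using hP
  -- the real place
  obtain ⟨r, ξ, y, hξr, hξ, hξζ, hyω, hy⟩ := hels.2
  obtain ⟨s, hs⟩ := Fintype.exists_ne_of_one_lt_card hcard r
  have hyK : |y| ≤ K₁ * h := by
    have h1 := hf0.aeval_le_one hξ
    rw [← hy, abs_pow, ← hK₁] at h1
    have h2 : K₁ * h ^ m ≤ (K₁ * h) ^ m := by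
      rw [mul_pow]
      exact mul_le_mul_of_nonneg_right (le_self_pow₀ hK₁1 (by omega)) hhm.le
    by_contra hcon
    push Not at hcon
    have h3 := pow_lt_pow_left₀ hcon (by positivity) (by omega : m ≠ 0)
    linarith
  obtain ⟨CR, hCR⟩ := hreal (f 0) r s hs ξ hξr hξ y hy hyK (by
    rintro ⟨h1, h2⟩
    apply hbadR
    refine ⟨r, ξ, 0, fun _ => 1, hξr, hξ, rfl, ?_, ?_, ?_⟩
    · intro j
      rw [abs_one]
    · intro j
      rw [Subsingleton.elim j 0]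
      exact h1
    · intro i
      rw [Fin.sum_univ_one, one_mul]
      exact h2 i)
  obtain ⟨C, hC1, hC2⟩ := crt_round (P := primesUpTo w)
    (fun p hp => (mem_primesUpTo.mp hp).2) (2 * (ℓ + m) + 1) CP CR
  obtain ⟨hR1, ⟨i, hR2⟩, hR3, hR4⟩ := hCR C hC2
  have htw : ∀ j, tw m (GC κ C) f j = f 0 - GC κ C ^ m := by
    intro j
    unfold tw
    rw [Subsingleton.elim j 0]
  obtain ⟨J, xc, hPD, hSJ, hxc⟩ := stable_ptT w (ℓ + m) (tw m (GC κ C) f) rP zP (by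
    intro p hp
    obtain ⟨h1, ⟨i, h2⟩, -⟩ := hCP p hp C (fun a b => hC1 p hp a b)
    refine ⟨hzP p hp, ?_, ?_⟩
    · intro j
      rw [htw j]
      exact h1
    · intro j₀ l hl hdiv
      apply h2
      have h3 := hdiv i
      have hl0 : l 0 = 1 := by rw [← hl, Subsingleton.elim j₀ 0]
      rw [Fin.sum_univ_one, hl0, one_mul] at h3
      unfold jac at h3
      rw [htw 0] at h3
      exact h3)
  obtain ⟨D, hD⟩ : ∃ D : ℝ, D = MvPolynomial.aeval ξ (MvPolynomial.pderiv i (f 0 - GC κ C ^ m)) :=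
    ⟨_, rfl⟩
  rw [← hD] at hR2
  have hD0 : D ≠ 0 := by
    intro h0
    rw [h0, abs_zero] at hR2
    have : 0 < γ₃ * h ^ m := by positivity
    linarith
  have hH' : 0 < C₁ * h ^ m := by positivity
  have hcond := prime_pow_cond hN hNw hNℓ
  refine ⟨GC κ C, (∏ p ∈ primesUpTo w, p) ^ (ℓ + m + 1), J, xc, ξ, fun _ => i,
    Matrix.of fun _ _ => (C₁ * h ^ m) / D, hPD, hSJ, ⟨C, rfl, ?_, ?_, ?_, hξζ, ?_, hR3⟩, ?_,
    ⟨r, hξr⟩, hξ, ?_, ?_, ?_, ?_⟩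
  · -- `N ∣ S`
    apply dvd_of_prime_pow
    intro p a hp ha
    obtain _ | a := a
    · rw [pow_zero]; exact one_dvd _
    obtain ⟨h1, h2⟩ := hcond p a hp ha
    have hpw : p ∈ primesUpTo w := mem_primesUpTo.mpr ⟨h1, hp⟩
    have h4 : p ^ (a + 1) ∣ (∏ p ∈ primesUpTo w, p) ^ (ℓ + m + 1) :=
      (pow_dvd_pow p (by omega : a + 1 ≤ ℓ + m + 1)).trans
        (pow_dvd_pow_of_dvd (Finset.dvd_prod_of_mem (fun p => p) hpw) _)
    exact_mod_cast h4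
  · -- `xc ≡ c`
    intro i
    apply dvd_of_prime_pow
    intro p a hp ha
    obtain _ | a := a
    · rw [pow_zero]; exact one_dvd _
    obtain ⟨h1, h2⟩ := hcond p a hp ha
    have hpw : p ∈ primesUpTo w := mem_primesUpTo.mpr ⟨h1, hp⟩
    have h3 := (pow_dvd_pow (p : ℤ) (by omega : a + 1 ≤ 2 * (ℓ + m) + 1)).trans (hxc p hpw i)
    have h4 := (hzyP p hpw (a + 1) ha).1 i
    have := dvd_add h3 h4
    simpa using this
  · -- `G xc ≡ b`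
    apply dvd_of_prime_pow
    intro p a hp ha
    obtain _ | a := a
    · rw [pow_zero]; exact one_dvd _
    obtain ⟨h1, h2⟩ := hcond p a hp ha
    have hpw : p ∈ primesUpTo w := mem_primesUpTo.mpr ⟨h1, hp⟩
    have h3 := Pool.Agent.Y67.HP.eval_congr_dvd' (GC κ C) (hxc p hpw)
    have h4 := (hCP p hpw C (fun a b => hC1 p hpw a b)).2.2
    have h5 := (pow_dvd_pow (p : ℤ) (by omega : a + 1 ≤ 2 * (ℓ + m) + 1)).trans (dvd_add h3 h4)
    have h6 := dvd_add h5 (hzyP p hpw (a + 1) ha).2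
    have h7 : MvPolynomial.eval xc (GC κ C) - MvPolynomial.eval (zP p) (GC κ C) +
        (MvPolynomial.eval (zP p) (GC κ C) - yP p) + (yP p - b) =
        MvPolynomial.eval xc (GC κ C) - b := by ring
    rwa [h7] at h6
  · -- the value at the real point
    have h1 := abs_add_le (MvPolynomial.aeval ξ (GC κ C) - y) (y - ω * h)
    rw [sub_add_sub_cancel] at h1
    linarith
  · intro j
    rw [htw j]
    have h1 : ((GC κ C) ^ m).IsHomogeneous (e j + 2) := by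
      have := (GC_homog κ C).pow m
      rwa [mul_comm (κ + 1) m, ← he j] at this
    have h2 : (f 0).IsHomogeneous (e j + 2) := by rw [he j]; exact hFh
    refine ⟨h2.sub h1, fun n => ?_⟩
    rw [MvPolynomial.coeff_sub, Int.cast_sub]
    refine (abs_sub _ _).trans ?_
    have h3 := hf0.2 n
    have h4 := coeff_GC_pow κ C m n
    have h5 : (∑ a, ∑ b, |((C a b : ℤ) : ℝ)|) ^ m ≤
        ((Fintype.card ι) ^ 2 * (K₁ + 2)) ^ m * h ^ m := by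
      rw [← mul_pow]
      exact pow_le_pow_left₀
        (Finset.sum_nonneg fun a _ => Finset.sum_nonneg fun b _ => abs_nonneg _) hR3 m
    rw [hC₁]
    linarith
  · intro j
    rw [htw j]
    refine hR1.trans ?_
    have h1 : (1 : ℝ) ≤ (mons ι (e j + 2)).card := by
      rw [Subsingleton.elim j 0, ← hK₁]; exact hK₁1
    have h2 : η / 2 * h ^ m ≤ η / 2 * (C₁ * h ^ m) := by
      apply mul_le_mul_of_nonneg_left _ (by positivity)
      exact le_mul_of_one_le_left hhm.le hC₁1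
    have h3 : 0 ≤ η / 2 * (C₁ * h ^ m) := by positivity
    nlinarith
  · intro j j' _
    exact Subsingleton.elim _ _
  · ext j j'
    rw [Matrix.mul_apply, Fin.sum_univ_one, Matrix.of_apply, Matrix.of_apply, htw, ← hD,
      Subsingleton.elim j j', Matrix.one_apply_eq]
    field_simp
  · intro j j'
    rw [Matrix.of_apply, abs_div, abs_of_pos hH', div_le_div_iff₀ (abs_pos.mpr hD0) (by positivity)]
    have h1 : C₁ * h ^ m * (2 * γ) ≤ γ₃ * h ^ m := by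
      have := mul_le_mul_of_nonneg_right hγγ hhm.le
      linarith
    linarith

/-- the zeros of the members of a class near its data give points of the cover near the target -/
theorem solT_of_zeroNear {m κ N : ℕ} {c : ι → ℤ} {b : ℤ} {ζ : ι → ℝ} {ω δ h B η₀ : ℝ} {ξ : ι → ℝ}
    {S J Q : ℕ} {xc : ι → ℤ} {G : MvPolynomial ι ℤ} {f g : Fin 1 → MvPolynomial ι ℤ}
    (hQ : S * J = Q) (hh : 0 < h) (hη0 : 0 ≤ η₀) (hη1 : η₀ ≤ 1) (hηδ : η₀ ≤ δ)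
    (hηB : B * ((κ + 1) * 2 ^ κ * η₀) ≤ δ / 2) (hξ : ∀ i, |ξ i| ≤ 1)
    (hT : Tgt κ N c b ζ ω δ h B G S xc ξ)
    (hz : ZeroNearS η₀ ξ S xc (memS (tw m G f) S J g)) :
    SolTW m (κ + 1) N c b ζ ω δ h (fun j => f j + MvPolynomial.C (Q : ℤ) * g j) := by
  obtain ⟨C, rfl, hNS, hNx, hNG, hξζ, hGω, hB⟩ := hT
  obtain ⟨x, h1, h2, h3, P, hP, h4⟩ := hz
  refine ⟨x, MvPolynomial.eval x (GC κ C), h1, ?_, fun i => ?_, ?_, P, hP, fun i => ?_, ?_⟩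
  · have h3 := h2 0
    unfold memS mem' tw at h3
    rw [hQ] at h3
    rw [map_add, map_sub, map_pow] at h3
    rw [map_add]
    linarith
  · have := dvd_add (hNS.trans (h3 i)) (hNx i)
    simpa using this
  · have h5 := hNS.trans (Pool.Agent.Y67.HP.eval_congr_dvd' (GC κ C) h3)
    have := dvd_add h5 hNG
    simpa using this
  · have h5 : |(x i : ℝ) - P * ζ i| ≤ |(x i : ℝ) - P * ξ i| + |P * (ξ i - ζ i)| := by
      have : (x i : ℝ) - P * ζ i = ((x i : ℝ) - P * ξ i) + P * (ξ i - ζ i) := by ring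
      rw [this]
      exact abs_add_le _ _
    rw [abs_mul, abs_of_pos hP] at h5
    have h6 := mul_le_mul_of_nonneg_left (hξζ i) hP.le
    have h7 := mul_le_mul_of_nonneg_right hηδ hP.le
    have h8 := h4 i
    linarith
  · have h5 := val_lip κ (C := fun a b => ((C a b : ℤ) : ℝ)) hB hη0 hη1 hP hξ h4
    rw [← aeval_GC, ← aeval_GC, aeval_cast] at h5
    have hPk : 0 < P ^ (κ + 1) := by positivity
    have h6 : |P ^ (κ + 1) * (MvPolynomial.aeval ξ (GC κ C) - ω * h)| ≤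
        P ^ (κ + 1) * (3 / 2 * δ * h) := by
      rw [abs_mul, abs_of_pos hPk]
      exact mul_le_mul_of_nonneg_left hGω hPk.le
    have h7 := abs_add_le (((MvPolynomial.eval x (GC κ C) : ℤ) : ℝ) -
      P ^ (κ + 1) * MvPolynomial.aeval ξ (GC κ C))
      (P ^ (κ + 1) * (MvPolynomial.aeval ξ (GC κ C) - ω * h))
    have h8 : ((MvPolynomial.eval x (GC κ C) : ℤ) : ℝ) -
        P ^ (κ + 1) * MvPolynomial.aeval ξ (GC κ C) +
        P ^ (κ + 1) * (MvPolynomial.aeval ξ (GC κ C) - ω * h) =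
        ((MvPolynomial.eval x (GC κ C) : ℤ) : ℝ) - P ^ (κ + 1) * (ω * h) := by ring
    rw [h8] at h7
    have h9 : B * h * ((κ + 1) * 2 ^ κ * η₀) * P ^ (κ + 1) ≤ δ / 2 * (h * P ^ (κ + 1)) := by
      have := mul_le_mul_of_nonneg_right hηB (by positivity : 0 ≤ h * P ^ (κ + 1))
      linarith
    linarith

open scoped Classical in
theorem good_countV {e : Fin 1 → ℕ} {m w : ℕ} {γ η H C₁ Cf η₀ T ε : ℝ} {Q : ℕ}
    {Tg : MvPolynomial ι ℤ → ℕ → (ι → ℤ) → (ι → ℝ) → Prop}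
    {Sol : (Fin 1 → MvPolynomial ι ℤ) → Prop}
    (hSol : ∀ (G : MvPolynomial ι ℤ) (S J : ℕ) (xc : ι → ℤ) (ξ : ι → ℝ)
      (f g : Fin 1 → MvPolynomial ι ℤ), S * J = Q → (∀ i, |ξ i| ≤ 1) → Tg G S xc ξ →
      ZeroNearS η₀ ξ S xc (memS (tw m G f) S J g) →
      Sol (fun j => f j + MvPolynomial.C (Q : ℤ) * g j))
    (hQ1 : 1 ≤ Q) (hγ0 : 0 < γ) (hH2 : 2 ≤ H) (hC₁0 : 0 < C₁) (hη0 : 0 < η) (hη1 : η ≤ 1)
    (hηC₁ : η * C₁ ≤ 1)
    (hCf : ∀ j : Fin 1, ∀ (f : MvPolynomial ι ℤ) (R : ℝ),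
      IsF (e j + 1) R f → ∀ x : ι → ℝ, (∀ i, |x i| ≤ 1) → |MvPolynomial.aeval x f| ≤ Cf * R)
    (hηC : ∀ j : Fin 1, Cf * (e j + 2) * η ≤ γ) (hCf0 : 0 ≤ Cf) (hT0 : 0 < T) (hε : 0 < ε)
    (hdouble : ∀ A : ℝ, 2 ≤ A → ((sysZ ι e (2 * A)).card : ℝ) ≤ T * (sysZ ι e A).card)
    (hA2 : 2 ≤ η / 2 * (C₁ * H) / Q)
    (hcls : ∀ (fc : Fin 1 → MvPolynomial ι ℤ) (S J : ℕ) (xc : ι → ℤ) (ξ : ι → ℝ) (a : Fin 1 → ι)
      (Li : Matrix (Fin 1) (Fin 1) ℝ),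
      PDataS w fc S J xc → RDataS e (C₁ * H) γ η fc ξ a Li → S * J = Q →
      (((sysZ ι e (η * (C₁ * H) / Q)).filter (fun g =>
        ¬ ZeroNearS η₀ ξ S xc (memS fc S J g))).card : ℝ) ≤
        ε / (4 * T * T) * (sysZ ι e (η * (C₁ * H) / Q)).card) :
    (((sysZ ι e H).filter (fun f => GoodV e m w γ η (C₁ * H) Q Tg f ∧
      ¬ Sol f)).card : ℝ) ≤ ε / 4 * (sysZ ι e H).card := by
  have hQr : (0 : ℝ) < Q := by exact_mod_cast hQ1
  have hH0 : 0 < H := by linarith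
  have hH'0 : 0 < C₁ * H := by positivity
  have hε1 : 0 ≤ ε / (4 * T) := by positivity
  have hε2 : 0 ≤ ε / (4 * T * T) := by positivity
  have hbox : η / 2 * (C₁ * H) ≤ H := by
    have := mul_le_mul_of_nonneg_right hηC₁ hH0.le
    linarith
  have h1 := avg_countV (e := e) (m := m) (w := w) (γ := γ) (η := η) (H := C₁ * H) (H₁ := H)
    (Cf := fun _ => Cf) (Q := Q) (T := Tg) hQ1 hγ0 hH'0 hη0.le hη1 hbox hCf hηC
    (fun _ => hCf0) (fun f => ¬ Sol f) (ε := ε / (4 * T)) hε1 (by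
      rintro f ⟨G, S, J, xc, ξ, a, Li, h1, h2, hTg, h6⟩
      have h7 := hcls (tw m G f) S J xc ξ a Li h1 h6 h2
      have h8 : sysZ ι e (η / 2 * (C₁ * H) / Q) ⊆ sysZ ι e (η * (C₁ * H) / Q) := by
        apply sysZ_mono
        apply div_le_div_of_nonneg_right _ hQr.le
        have : 0 ≤ η * (C₁ * H) := by positivity
        linarith
      refine (card_filter_sub h8 _ _ (fun g _ hg hz => hg
        (hSol G S J xc ξ f g h2 h6.hξ hTg hz))).trans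
        (h7.trans ?_)
      have h10 := hdouble _ hA2
      have h11 : 2 * (η / 2 * (C₁ * H) / Q) = η * (C₁ * H) / Q := by ring
      rw [h11] at h10
      have h12 := mul_le_mul_of_nonneg_left h10 hε2
      refine h12.trans (le_of_eq ?_)
      field_simp)
  refine (card_filter_le' _ _ _ (fun _ _ h => h)).trans (h1.trans ?_)
  have h2 := mul_le_mul_of_nonneg_left (hdouble H hH2) hε1
  refine h2.trans (le_of_eq ?_)
  field_simp

open scoped Classical in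
/-- Almost all covers with local points near a target have a rational point near the target. -/
theorem exc_coverV (ι : Type*) [Fintype ι] {m κ : ℕ} (hm : 2 ≤ m) (hcard : 1 < Fintype.card ι)
    {e : Fin 1 → ℕ} (he : ∀ j, e j + 2 = m * (κ + 1))
    (hcl : ClassStmtS ι e) (h1 : BadCountInt ι e) (h2 : BadCountReal ι e) :
    ∀ (N : ℕ), 1 ≤ N → ∀ (c : ι → ℤ) (b : ℤ) (ζ : ι → ℝ) (ω δ : ℝ), 0 < δ →
      ∀ ε : ℝ, 0 < ε → ∃ H₀ : ℝ, ∀ h : ℝ, 0 ≤ h → H₀ ≤ h ^ m →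
      (((sysZ ι e (h ^ m)).filter (fun f => LocSolW m N c b ζ ω δ h f ∧
        ¬ SolTW m (κ + 1) N c b ζ ω δ h f)).card : ℝ) ≤ ε * (sysZ ι e (h ^ m)).card := by
  intro N hN c b ζ ω δ hδ ε hε
  obtain ⟨T, hT⟩ : ∃ T : ℝ, T = ∏ j, (3 : ℝ) ^ (mons ι (e j + 2)).card := ⟨_, rfl⟩
  have hT0 : 0 < T := by rw [hT]; exact Finset.prod_pos fun j _ => by positivity
  obtain ⟨k, hk⟩ : ∃ k, Fintype.card ι = k := ⟨_, rfl⟩
  obtain ⟨w₀, hw₀1, hcl⟩ := hcl (ε / (4 * T * T)) (by positivity)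
  obtain ⟨w, hw⟩ : ∃ w, w = w₀ + N := ⟨_, rfl⟩
  obtain ⟨Cb, hCb0, hCb⟩ := h2
  obtain ⟨Cf, hCf1, hCf⟩ : ∃ Cf : ℝ, 1 ≤ Cf ∧ ∀ j : Fin 1, ∀ (f : MvPolynomial ι ℤ) (R : ℝ),
      IsF (e j + 1) R f → ∀ x : ι → ℝ, (∀ i, |x i| ≤ 1) → |MvPolynomial.aeval x f| ≤ Cf * R := by
    obtain ⟨Cf, hCf1, hCf⟩ := form_bounds (ι := ι) (e 0 + 1)
    refine ⟨Cf, hCf1, fun j f R hf x hx => ?_⟩
    rw [Subsingleton.elim j 0] at hf
    have := (hCf f R hf.1 hf.2 1 (by norm_num)).1 x hx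
    rwa [one_pow, mul_one] at this
  obtain ⟨γ₂, hγ₂⟩ : ∃ γ₂ : ℝ, γ₂ = min 1 (ε / (4 * Cb * T)) := ⟨_, rfl⟩
  have hγ₂0 : 0 < γ₂ := by rw [hγ₂]; exact lt_min one_pos (by positivity)
  have hγ₂1 : γ₂ ≤ 1 := by rw [hγ₂]; exact min_le_left _ _
  have hγ₂C : Cb * γ₂ * T ≤ ε / 4 := by
    have h1 : γ₂ ≤ ε / (4 * Cb * T) := by rw [hγ₂]; exact min_le_right _ _
    rw [le_div_iff₀ (by positivity)] at h1
    linarith
  obtain ⟨K₁, hK₁⟩ : ∃ K₁ : ℝ, K₁ = (mons ι (e 0 + 2)).card := ⟨_, rfl⟩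
  have hK₁1 : 1 ≤ K₁ := by
    rw [hK₁]
    have : 0 < (mons ι (e 0 + 2)).card := by
      rw [Finset.card_pos]
      obtain ⟨i⟩ : Nonempty ι := Fintype.card_pos_iff.mp (by omega)
      refine ⟨Finsupp.single i (e 0 + 2), mem_mons.mpr ?_⟩
      rw [Finset.sum_eq_single i (fun j _ hj => by rw [Finsupp.single_apply, if_neg (Ne.symm hj)])
        (fun h => absurd (Finset.mem_univ i) h), Finsupp.single_eq_same]
    exact_mod_cast this
  obtain ⟨γ₃, hγ₃0, hreal⟩ := real_formT (ι := ι) κ hm hK₁1 hγ₂0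
  obtain ⟨C₁, hC₁⟩ : ∃ C₁ : ℝ, C₁ = 1 + ((Fintype.card ι) ^ 2 * (K₁ + 2)) ^ m := ⟨_, rfl⟩
  have hC₁1 : 1 ≤ C₁ := by
    rw [hC₁]
    have : (0 : ℝ) ≤ ((Fintype.card ι) ^ 2 * (K₁ + 2)) ^ m := by positivity
    linarith
  have hC₁0 : 0 < C₁ := by linarith
  obtain ⟨γ, hγ⟩ : ∃ γ : ℝ, γ = min 1 (γ₃ / (2 * C₁)) := ⟨_, rfl⟩
  have hγ0 : 0 < γ := by rw [hγ]; exact lt_min one_pos (by positivity)
  have hγ1 : γ ≤ 1 := by rw [hγ]; exact min_le_left _ _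
  have hγγ : 2 * γ * C₁ ≤ γ₃ := by
    have h1 : γ ≤ γ₃ / (2 * C₁) := by rw [hγ]; exact min_le_right _ _
    rw [le_div_iff₀ (by positivity)] at h1
    linarith
  obtain ⟨ℓ₀, hℓ₀⟩ : ∃ ℓ₀ : ℕ, (1 / 2 : ℝ) ^ ℓ₀ <
      ε / (4 * ((w + 1) * (k * (1 : ℕ)) * T) + 1) :=
    exists_pow_lt_of_lt_one (by positivity) (by norm_num)
  obtain ⟨ℓ, hℓ⟩ : ∃ ℓ : ℕ, ℓ = ℓ₀ + N := ⟨_, rfl⟩
  have hℓε : (1 / 2 : ℝ) ^ ℓ * ((w + 1) * (k * (1 : ℕ)) * T) ≤ ε / 4 := by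
    have h2 : (0:ℝ) ≤ (w + 1) * (k * (1 : ℕ)) * T := by positivity
    have h1 : (1 / 2 : ℝ) ^ ℓ ≤ (1 / 2) ^ ℓ₀ :=
      pow_le_pow_of_le_one (by norm_num) (by norm_num) (by omega)
    have h3 := h1.trans hℓ₀.le
    rw [le_div_iff₀ (by positivity)] at h3
    have h4 : (0:ℝ) ≤ (1 / 2) ^ ℓ := by positivity
    linarith
  obtain ⟨Q, hQ⟩ : ∃ Q : ℕ, Q = (∏ p ∈ primesUpTo w, p) ^ (2 * (ℓ + m) + 1) := ⟨_, rfl⟩
  have hQ1 : 1 ≤ Q := by
    rw [hQ]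
    exact pow_pos (Finset.prod_pos (fun p hp => (mem_primesUpTo.mp hp).2.pos)) _
  have hQr : (0 : ℝ) < Q := by exact_mod_cast hQ1
  obtain ⟨B, hB⟩ : ∃ B : ℝ, B = (Fintype.card ι) ^ 2 * (K₁ + 2) := ⟨_, rfl⟩
  have hB0 : 0 ≤ B := by rw [hB]; positivity
  obtain ⟨η₀, hη₀⟩ : ∃ η₀ : ℝ, η₀ = min (min (1 / C₁) (γ / (Cf * (e 0 + 2))))
    (min (min 1 δ) (δ / (2 * (B * ((κ + 1) * 2 ^ κ) + 1)))) := ⟨_, rfl⟩
  have hCf0 : 0 < Cf := by linarith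
  have hη₀0 : 0 < η₀ := by
    rw [hη₀]
    exact lt_min (lt_min (by positivity) (by positivity))
      (lt_min (lt_min one_pos hδ) (by positivity))
  have hη₀1 : η₀ ≤ 1 / C₁ := by rw [hη₀]; exact (min_le_left _ _).trans (min_le_left _ _)
  have hη₀γ : η₀ ≤ γ / (Cf * (e 0 + 2)) := by
    rw [hη₀]; exact (min_le_left _ _).trans (min_le_right _ _)
  have hη₀1' : η₀ ≤ 1 := by
    rw [hη₀]; exact (min_le_right _ _).trans ((min_le_left _ _).trans (min_le_left _ _))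
  have hη₀δ : η₀ ≤ δ := by
    rw [hη₀]; exact (min_le_right _ _).trans ((min_le_left _ _).trans (min_le_right _ _))
  have hη₀B : B * ((κ + 1) * 2 ^ κ * η₀) ≤ δ / 2 := by
    have h1 : η₀ ≤ δ / (2 * (B * ((κ + 1) * 2 ^ κ) + 1)) := by
      rw [hη₀]; exact (min_le_right _ _).trans (min_le_right _ _)
    rw [le_div_iff₀ (by positivity)] at h1
    linarith
  obtain ⟨η, hη0, hη1, hηη₀, H₁, hH₁⟩ := hcl w (by omega) γ hγ0 hγ1 Q hQ1 η₀ hη₀0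
  have hηC : ∀ j : Fin 1, Cf * (e j + 2) * η ≤ γ := by
    intro j
    rw [Subsingleton.elim j 0]
    have h1 := hηη₀.trans hη₀γ
    rw [le_div_iff₀ (by positivity)] at h1
    linarith
  have hηC₁ : η * C₁ ≤ 1 := by
    have h1 := hηη₀.trans hη₀1
    rwa [le_div_iff₀ hC₁0] at h1
  obtain ⟨h₀, hh₀1, hreal⟩ := hreal (min (η / 2) (δ / 2)) (lt_min (by positivity) (by positivity))
    Q hQr.le
  refine ⟨max (max (max H₁ 2) (max (1 / γ₂) ((w : ℝ) ^ ℓ))) (max (h₀ ^ m) (4 * Q / η)),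
    fun h hh0 hH => ?_⟩
  obtain ⟨H, hhm⟩ : ∃ H : ℝ, h ^ m = H := ⟨_, rfl⟩
  rw [hhm] at hH ⊢
  have hHA := (le_max_left _ _).trans hH
  have hHB := (le_max_right _ _).trans hH
  have hH1 : H₁ ≤ H := (le_max_left _ _).trans ((le_max_left _ _).trans hHA)
  have hH2 : 2 ≤ H := (le_max_right _ _).trans ((le_max_left _ _).trans hHA)
  have hH3 : 1 / γ₂ ≤ H := (le_max_left _ _).trans ((le_max_right _ _).trans hHA)
  have hH4 : (w : ℝ) ^ ℓ ≤ H := (le_max_right _ _).trans ((le_max_right _ _).trans hHA)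
  have hH5 : h₀ ^ m ≤ H := (le_max_left _ _).trans hHB
  have hH6 : 4 * Q / η ≤ H := (le_max_right _ _).trans hHB
  have hH0 : 0 < H := by linarith
  have hhh₀ : h₀ ≤ h := by
    by_contra hcon
    push Not at hcon
    have := pow_lt_pow_left₀ hcon hh0 (by omega : m ≠ 0)
    linarith
  have hh0' : 0 < h := by linarith
  have hH'0 : 0 < C₁ * H := by positivity
  have hHH' : H ≤ C₁ * H := le_mul_of_one_le_left hH0.le hC₁1
  obtain ⟨G, hG⟩ : ∃ G : ℝ, ((sysZ ι e H).card : ℝ) = G := ⟨_, rfl⟩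
  have hG0 : 0 < G := by
    rw [← hG, card_sysZ]
    exact_mod_cast Finset.prod_pos fun j _ => card_forms_pos (ι := ι) (e j + 2) hH0.le
  have hdouble : ∀ A : ℝ, 2 ≤ A → ((sysZ ι e (2 * A)).card : ℝ) ≤ T * (sysZ ι e A).card := by
    intro A hA
    rw [card_sysZ, card_sysZ, hT]
    push_cast
    rw [← Finset.prod_mul_distrib]
    apply Finset.prod_le_prod
    · intro j _
      positivity
    · intro j _
      exact card_forms_upper (ι := ι) (e j + 2) (A := A) (R := 2 * A) (c := 3)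
        (by linarith) (by linarith) (by norm_num) (by linarith)
  have h2H : ((sysZ ι e (2 * H)).card : ℝ) ≤ T * G := by
    rw [← hG]; exact hdouble H hH2
  -- good forms
  have hgood : (((sysZ ι e H).filter (fun f => GoodV e m w γ η (C₁ * H) Q
      (Tgt κ N c b ζ ω δ h B) f ∧ ¬ SolTW m (κ + 1) N c b ζ ω δ h f)).card : ℝ) ≤ ε / 4 * G := by
    rw [← hG]
    refine good_countV (Cf := Cf) (η₀ := η₀) (fun G S J xc ξ f g hSJ hξ hT hz =>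
      solT_of_zeroNear hSJ hh0' hη₀0.le hη₀1' hη₀δ hη₀B hξ hT hz) hQ1 hγ0 hH2 hC₁0 hη0 hη1 hηC₁ hCf hηC hCf0.le hT0 hε
      hdouble ?_ ?_
    · rw [le_div_iff₀ hQr]
      rw [div_le_iff₀ hη0] at hH6
      have h1 : H * η ≤ C₁ * H * η := mul_le_mul_of_nonneg_right hHH' hη0.le
      linarith
    · intro fc S J xc ξ a Li h1 h2 h3
      have h7 := hH₁ (C₁ * H) (hH1.trans hHH') fc S J xc ξ a Li h1 h2 h3.le
      rw [h3] at h7
      exact h7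
  -- degenerate real points
  have hbadR : (((sysZ ι e H).filter (fun f => BadRS γ₂ H f)).card : ℝ) ≤ ε / 4 * G := by
    have h1 := hCb γ₂ H hγ₂0 hγ₂1 (by
      rw [div_le_iff₀ (by positivity)] at hH3
      linarith)
    have h2 : (((sysZ ι e H).filter (fun f => BadRS γ₂ H f)).card : ℝ) ≤
        Cb * γ₂ * (sysZ ι e (2 * H)).card :=
      (card_filter_le' _ _ _ (fun _ _ h => h)).trans h1
    have h3 := mul_le_mul_of_nonneg_left h2H (by positivity : 0 ≤ Cb * γ₂)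
    have h4 := mul_le_mul_of_nonneg_right hγ₂C hG0.le
    linarith
  -- degenerate points modulo prime powers
  have hbadP : ∀ p ∈ primesUpTo w, (((sysZ ι e H).filter
      (fun f => BadAtS (p ^ ℓ) f)).card : ℝ) ≤ (1 / 2 : ℝ) ^ ℓ * ((k * (1 : ℕ)) * (T * G)) := by
    intro p hp
    obtain ⟨hp1, hp2⟩ := mem_primesUpTo.mp hp
    have h1 := h1 (p ^ ℓ) (Nat.pos_of_ne_zero (pow_ne_zero _ hp2.ne_zero)) H hH0.le
    have h2 : (((sysZ ι e H).filter (fun f => BadAtS (p ^ ℓ) f)).card : ℝ) *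
        ((p ^ ℓ : ℕ) : ℝ) ≤ (k * (1 : ℕ)) * ((sysZ ι e (H + (p ^ ℓ : ℕ))).card : ℝ) := by
      rw [← hk]
      have h1' := (Nat.cast_le (α := ℝ)).mpr h1
      rw [Nat.cast_mul, Nat.cast_mul, Nat.cast_mul] at h1'
      exact (mul_le_mul_of_nonneg_right (card_filter_le' _ _ _ (fun _ _ h => h))
        (Nat.cast_nonneg _)).trans h1'
    have h3 : ((p ^ ℓ : ℕ) : ℝ) ≤ H := by
      refine le_trans ?_ hH4
      push_cast
      apply pow_le_pow_left₀ (Nat.cast_nonneg _)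
      exact_mod_cast hp1
    have h4 : ((sysZ ι e (H + (p ^ ℓ : ℕ))).card : ℝ) ≤ T * G := by
      refine le_trans ?_ h2H
      exact_mod_cast Finset.card_le_card (sysZ_mono (by linarith))
    have h5 : (2:ℝ) ^ ℓ ≤ ((p ^ ℓ : ℕ) : ℝ) := by
      push_cast
      apply pow_le_pow_left₀ (by norm_num)
      exact_mod_cast hp2.two_le
    have h6 : (((sysZ ι e H).filter (fun f => BadAtS (p ^ ℓ) f)).card : ℝ) * 2 ^ ℓ ≤
        (k * (1 : ℕ)) * (T * G) :=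
      (mul_le_mul_of_nonneg_left h5 (Nat.cast_nonneg _)).trans
        (h2.trans (mul_le_mul_of_nonneg_left h4 (by positivity)))
    rw [one_div, inv_pow, inv_mul_eq_div, le_div_iff₀ (by positivity)]
    exact h6
  -- covering
  have hcov : (sysZ ι e H).filter (fun f => LocSolW m N c b ζ ω δ h f ∧
      ¬ SolTW m (κ + 1) N c b ζ ω δ h f) ⊆
      ((sysZ ι e H).filter (fun f => GoodV e m w γ η (C₁ * H) Q
        (Tgt κ N c b ζ ω δ h B) f ∧ ¬ SolTW m (κ + 1) N c b ζ ω δ h f)) ∪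
      ((primesUpTo w).biUnion (fun p => (sysZ ι e H).filter (fun f => BadAtS (p ^ ℓ) f)) ∪
      (sysZ ι e H).filter (fun f => BadRS γ₂ H f)) := by
    intro f hf
    obtain ⟨hf1, hf2, hf3⟩ := Finset.mem_filter.mp hf
    rw [Finset.mem_union, Finset.mem_union, Finset.mem_biUnion, Finset.mem_filter,
      Finset.mem_filter]
    by_cases hbf : ∃ p ∈ primesUpTo w, BadAtS (p ^ ℓ) f
    · obtain ⟨p, hp, hb⟩ := hbf
      right; left
      exact ⟨p, hp, Finset.mem_filter.mpr ⟨hf1, hb⟩⟩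
    by_cases hbr : BadRS γ₂ H f
    · right; right; exact ⟨hf1, hbr⟩
    left
    refine ⟨hf1, ?_, hf3⟩
    push Not at hbf
    rw [← hhm] at hf1 hbr ⊢
    rw [hQ] at hreal ⊢
    rw [hB]
    refine good_ofV hm hcard he hN (by omega) (by omega) hγ₃0 hγ0 hC₁ hC₁1 hγγ hη0 hh0' hK₁ hK₁1
      (fun F r s hs ξ hξr hξ y hy hyK hb => ?_) hf1 hf2 hbf hbr
    obtain ⟨CR, hCR⟩ := hreal h hhh₀ F r s hs ξ hξr hξ y hy hyK hb
    refine ⟨CR, fun C hC => ?_⟩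
    obtain ⟨g1, g2, g3, g4⟩ := hCR C hC
    exact ⟨g1.trans (mul_le_mul_of_nonneg_right (min_le_left _ _) (by positivity)), g2, g3,
      g4.trans (mul_le_mul_of_nonneg_right (min_le_right _ _) hh0)⟩
  have h1 : (((sysZ ι e H).filter (fun f => LocSolW m N c b ζ ω δ h f ∧
      ¬ SolTW m (κ + 1) N c b ζ ω δ h f)).card : ℝ) ≤
      (((sysZ ι e H).filter (fun f => GoodV e m w γ η (C₁ * H) Q
        (Tgt κ N c b ζ ω δ h B) f ∧ ¬ SolTW m (κ + 1) N c b ζ ω δ h f)).card : ℝ) +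
      ((∑ p ∈ primesUpTo w, (((sysZ ι e H).filter (fun f => BadAtS (p ^ ℓ) f)).card : ℝ)) +
      (((sysZ ι e H).filter (fun f => BadRS γ₂ H f)).card : ℝ)) := by
    have h2 := (Finset.card_le_card hcov).trans ((Finset.card_union_le _ _).trans
      (Nat.add_le_add_left ((Finset.card_union_le _ _).trans
        (Nat.add_le_add_right Finset.card_biUnion_le _)) _))
    exact_mod_cast h2
  have h2 : (∑ p ∈ primesUpTo w, (((sysZ ι e H).filter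
      (fun f => BadAtS (p ^ ℓ) f)).card : ℝ)) ≤ ε / 4 * G := by
    calc _ ≤ (primesUpTo w).card • ((1 / 2 : ℝ) ^ ℓ * ((k * (1 : ℕ)) * (T * G))) :=
          Finset.sum_le_card_nsmul _ _ _ hbadP
      _ = ((primesUpTo w).card : ℝ) * ((1 / 2 : ℝ) ^ ℓ * ((k * (1 : ℕ)) * (T * G))) := by
          rw [nsmul_eq_mul]
      _ ≤ (w + 1) * ((1 / 2 : ℝ) ^ ℓ * ((k * (1 : ℕ)) * (T * G))) := by
          apply mul_le_mul_of_nonneg_right _ (by positivity)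
          have : (primesUpTo w).card ≤ w + 1 := by
            unfold primesUpTo
            refine (Finset.card_filter_le _ _).trans ?_
            rw [Finset.card_range]
          exact_mod_cast this
      _ = ((1 / 2 : ℝ) ^ ℓ * ((w + 1) * (k * (1 : ℕ)) * T)) * G := by ring
      _ ≤ ε / 4 * G := mul_le_mul_of_nonneg_right hℓε hG0.le
  have h3 : 0 < ε * G := by positivity
  have h5 : (((sysZ ι e H).filter
      (fun f => LocSolW m N c b ζ ω δ h f ∧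
      ¬ SolTW m (κ + 1) N c b ζ ω δ h f)).card : ℝ) ≤ ε * G := by linarith
  rw [hG]
  exact (card_filter_le' _ _ _ (fun _ _ h => h)).trans h5

end Pool.Agent.K6.H67.CW
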