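import Pool.Agent.K6.H67.CW.WA
import Pool.Agent.R465.CV.Main

/-!
# Cyclic covers: weak approximation for almost all smooth cyclic covers
-/

set_option autoImplicit false

namespace Pool.Agent.K6.H67.CW

open Pool.Agent.Y716.Q Pool.Agent.Y716.C Pool.Agent.Y363.C7 Pool.Agent.R465.CV
  Pool.Agent.Y697.C13 Pool.Agent.Y487.C8 Filter Topology

variable {ι : Type*} [Fintype ι]

/-- Weak approximation on the cover `w ^ m = F(x)`, with precision `1 / M` at the primes up to `M`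
and at the real place (for `w`: relative to the size of the coefficients of `F`). -/
def WAF (m k M : ℕ) (F : MvPolynomial ι ℤ) : Prop :=
  ∀ (z : ∀ (p : ℕ) [Fact p.Prime], ι → ℚ_[p]) (v : ∀ (p : ℕ) [Fact p.Prime], ℚ_[p])
    (y : ι → ℝ) (u : ℝ),
    (∀ (p : ℕ) [Fact p.Prime], z p ≠ 0 ∧ v p ^ m = MvPolynomial.aeval (z p) F) → y ≠ 0 →
    u ^ m = MvPolynomial.aeval y F →
    ∃ (x : ι → ℚ) (w : ℚ), x ≠ 0 ∧ w ^ m = MvPolynomial.aeval x F ∧
      (∀ (p : ℕ) [Fact p.Prime], p ≤ M → ∃ c : ℚ_[p], c ≠ 0 ∧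
        (∀ i, ‖z p i - c * (x i : ℚ_[p])‖ ≤ ‖z p‖ / M) ∧
        ‖v p - c ^ k * (w : ℚ_[p])‖ ≤ ‖z p‖ ^ k / M) ∧
      ∃ c : ℝ, c ≠ 0 ∧ (∀ i, |y i - c * (x i : ℝ)| ≤ ‖y‖ / M) ∧
        ∃ a, (M * |u - c ^ k * (w : ℝ)|) ^ m ≤ ‖y‖ ^ (m * k) * |((F.coeff a : ℤ) : ℝ)|

theorem waF_of_waH {m k M : ℕ} (hm : 1 ≤ m) (hM : 1 ≤ M) {h : ℝ} (hh : 0 ≤ h)
    {F : MvPolynomial ι ℤ} (hF : ∃ a, h ^ m / M ≤ |((F.coeff a : ℤ) : ℝ)|)
    (hw : WAh m k (M * M) h F) : WAF m k M F := by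
  intro z v y u hz hy hu
  have hMr : (1 : ℝ) ≤ M := by exact_mod_cast hM
  have hM0 : (0 : ℝ) < M := by linarith
  have hMM : ((M * M : ℕ) : ℝ) = M * M := by push_cast; ring
  have hdiv : ∀ A : ℝ, 0 ≤ A → A / ((M * M : ℕ) : ℝ) ≤ A / M := by
    intro A hA
    rw [hMM]
    apply div_le_div_of_nonneg_left hA hM0
    nlinarith
  obtain ⟨x, w, hx, hxw, hp, c, hc, hc1, hc2⟩ := hw z v y u hz hy hu
  refine ⟨x, w, hx, hxw, fun p _ hpM => ?_, c, hc, fun i => ?_, ?_⟩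
  · obtain ⟨c', h1, h2, h3⟩ := hp p (hpM.trans (Nat.le_mul_of_pos_left M (by omega)))
    exact ⟨c', h1, fun i => (h2 i).trans (hdiv _ (norm_nonneg _)),
      h3.trans (hdiv _ (by positivity))⟩
  · exact (hc1 i).trans (hdiv _ (norm_nonneg _))
  · obtain ⟨a, ha⟩ := hF
    refine ⟨a, ?_⟩
    have h1 : M * |u - c ^ k * (w : ℝ)| ≤ ‖y‖ ^ k * h / M := by
      have := mul_le_mul_of_nonneg_left hc2 hM0.le
      refine this.trans (le_of_eq ?_)
      rw [hMM]
      field_simp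
    have h2 := pow_le_pow_left₀ (by positivity) h1 m
    refine h2.trans ?_
    have h3 : (‖y‖ ^ k * h / M) ^ m = ‖y‖ ^ (m * k) * (h ^ m / M ^ m) := by
      rw [div_pow, mul_pow, ← pow_mul, mul_comm k m, mul_div_assoc]
    rw [h3]
    apply mul_le_mul_of_nonneg_left _ (by positivity)
    refine le_trans ?_ ha
    apply div_le_div_of_nonneg_left (by positivity) hM0
    exact le_self_pow₀ hMr (by omega)

open scoped Classical in
theorem wa_excF (ι : Type*) [Fintype ι] {m κ : ℕ} (hm : 2 ≤ m) (hcard : 1 < Fintype.card ι)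
    {e : Fin 1 → ℕ} (he : ∀ j, e j + 2 = m * (κ + 1))
    (hcl : ClassStmtS ι e) (h1 : BadCountInt ι e) (h2 : BadCountReal ι e)
    {M : ℕ} (hM : 1 ≤ M) :
    ∃ H₀ : ℝ, ∀ H : ℝ, H₀ ≤ H →
    (((sysZ ι e H).filter (fun f => ¬ WAF m (κ + 1) M (f 0))).card : ℝ) ≤
        3 / M * (sysZ ι e H).card := by
  have hMr : (1 : ℝ) ≤ M := by exact_mod_cast hM
  have hM0 : (0 : ℝ) < M := by linarith
  obtain ⟨H₀, hH₀⟩ := wa_excW ι hm hcard he hcl h1 h2 (M := M * M)
    (Nat.one_le_iff_ne_zero.mpr (Nat.mul_ne_zero (by omega) (by omega))) (ε := 1 / M)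
    (by positivity)
  refine ⟨max H₀ (M + 2), fun H hH => ?_⟩
  have hH1 := (le_max_left _ _).trans hH
  have hH2 := (le_max_right _ _).trans hH
  have hH0 : 0 < H := by linarith
  obtain ⟨h, hh0, hhm⟩ : ∃ h : ℝ, 0 < h ∧ h ^ m = H :=
    ⟨H ^ ((m : ℝ)⁻¹), by positivity, Real.rpow_inv_natCast_pow hH0.le (by omega)⟩
  have h3 := hH₀ h hh0 (by rw [hhm]; exact hH1)
  rw [hhm] at h3
  rcases Nat.lt_or_ge M 2 with hM2 | hM2
  · have hM1 : M = 1 := by omega
    subst hM1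
    have h4 : (((sysZ ι e H).filter (fun f => ¬ WAF m (κ + 1) 1 (f 0))).card : ℝ) ≤
        (sysZ ι e H).card := card_filter_le_self' _ _
    have h5 : (0 : ℝ) ≤ (sysZ ι e H).card := Nat.cast_nonneg _
    push_cast
    linarith
  have hM2r : (2 : ℝ) ≤ M := by exact_mod_cast hM2
  have h4 : (((sysZ ι e H).filter (fun f => ¬ WAF m (κ + 1) M (f 0))).card : ℝ) ≤
      ((sysZ ι e H).filter (fun f => ¬ WAh m (κ + 1) (M * M) h (f 0))).card +
      ((sysZ ι e H).filter (fun f => ¬ ∃ a, h ^ m / M ≤ |(((f 0).coeff a : ℤ) : ℝ)|)).card :=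
    card_filter_le_add' _ _ _ _ (fun f _ hf => by
      by_contra hcon
      push Not at hcon
      obtain ⟨g1, g2⟩ := hcon
      exact hf (waF_of_waH (by omega) hM hh0.le g2 g1))
  have h5 : (((sysZ ι e H).filter
      (fun f => ¬ ∃ a, h ^ m / M ≤ |(((f 0).coeff a : ℤ) : ℝ)|)).card : ℝ) ≤
      2 / M * (sysZ ι e H).card := by
    have h6 : (sysZ ι e H).filter (fun f => ¬ ∃ a, h ^ m / M ≤ |(((f 0).coeff a : ℤ) : ℝ)|) ⊆
        sysZ ι e (H / M) := by
      intro f hf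
      obtain ⟨hf1, hf2⟩ := Finset.mem_filter.mp hf
      push Not at hf2
      rw [hhm] at hf2
      refine mem_sysZ.mpr fun j => ⟨(mem_sysZ.mp hf1 j).1, fun n => ?_⟩
      rw [Subsingleton.elim j 0]
      exact (hf2 n).le
    have h7 : ((sysZ ι e (H / M)).card : ℝ) ≤ 2 / M * (sysZ ι e H).card := by
      rw [card_sysZ, card_sysZ, Fin.prod_univ_one, Fin.prod_univ_one]
      have h8 := card_forms_upper (ι := ι) (e 0 + 2) (A := H) (R := H / M) (c := 2 / M)
        (by linarith) (by positivity) (by positivity) (by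
          have h9 : 2 / (M : ℝ) * (2 * H - 1) = (4 * H - 2) / M := by ring
          have h10 : 2 * (H / M) + 1 = (2 * H + M) / M := by field_simp
          rw [h9, h10]
          apply div_le_div_of_nonneg_right _ hM0.le
          linarith)
      refine h8.trans ?_
      apply mul_le_mul_of_nonneg_right _ (Nat.cast_nonneg _)
      apply pow_le_of_le_one (by positivity)
      · rw [div_le_one hM0]; exact hM2r
      · rw [← Nat.pos_iff_ne_zero, Finset.card_pos]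
        obtain ⟨i⟩ : Nonempty ι := Fintype.card_pos_iff.mp (by omega)
        refine ⟨Finsupp.single i (e 0 + 2), mem_mons.mpr ?_⟩
        rw [Finset.sum_eq_single i (fun j _ hj => by
            rw [Finsupp.single_apply, if_neg (Ne.symm hj)])
          (fun h => absurd (Finset.mem_univ i) h), Finsupp.single_eq_same]
    refine le_trans ?_ h7
    exact_mod_cast Finset.card_le_card h6
  have h6 : (3 : ℝ) / M * (sysZ ι e H).card = 1 / M * (sysZ ι e H).card +
      2 / M * (sysZ ι e H).card := by ring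
  rw [h6]
  exact h4.trans (add_le_add h3 h5)

/-- Weak approximation for almost all smooth cyclic covers. -/
theorem wa_cover (ι : Type*) [Fintype ι] {m κ : ℕ} (hm : 2 ≤ m) (hcard : 1 < Fintype.card ι)
    {e : Fin 1 → ℕ} (he : ∀ j, e j + 2 = m * (κ + 1))
    (hcl : ClassStmtS ι e) (h1 : BadCountInt ι e) (h2 : BadCountReal ι e) (hpos : PosStmtS ι e) :
    ∃ M : ℕ → ℕ, Tendsto M atTop atTop ∧ Tendsto (fun H : ℕ =>
      (({f : Fin 1 → MvPolynomial ι ℤ | (∀ j, (f j).IsHomogeneous (e j + 2) ∧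
          ∀ a, |(f j).coeff a| ≤ (H : ℤ)) ∧ SmoothS f ∧ ElsW m f ∧
          WAF m (κ + 1) (M H) (f 0)} : Set _).ncard : ℝ) /
      (({f : Fin 1 → MvPolynomial ι ℤ | (∀ j, (f j).IsHomogeneous (e j + 2) ∧
          ∀ a, |(f j).coeff a| ≤ (H : ℤ)) ∧ SmoothS f ∧ ElsW m f} : Set _).ncard : ℝ))
      atTop (𝓝 1) := by
  classical
  simp only [ncard_eq_filterS]
  obtain ⟨c, hc0, H₁, hH₁⟩ := hpos
  have hT : ∀ᶠ H : ℕ in atTop, (0 : ℝ) < ((sysZ ι e (H : ℝ)).card : ℝ) := by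
    filter_upwards with H
    rw [card_sysZ]
    push_cast
    apply Finset.prod_pos
    intro j _
    exact_mod_cast card_forms_pos (ι := ι) (e j + 2) (Nat.cast_nonneg H)
  have hpt0 : ∀ f : Fin 1 → MvPolynomial ι ℤ, (∃ x : ι → ℤ, x ≠ 0 ∧ ∀ j,
      MvPolynomial.eval x (f j) = 0) → Pt m (f 0) ℚ := by
    rintro f ⟨x, hx, hx0⟩
    exact pt_of_sol ⟨x, 0, hx, by rw [hx0 0]; exact zero_pow (by omega)⟩
  have hcb : ∀ᶠ H : ℕ in atTop, c * ((sysZ ι e (H : ℝ)).card : ℝ) ≤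
      (((sysZ ι e (H : ℝ)).filter (fun f => ElsW m f)).card : ℝ) := by
    filter_upwards [eventually_ge_atTop ⌈H₁⌉₊] with H hH
    have h1 := hH₁ (H : ℝ) ((Nat.le_ceil H₁).trans (by exact_mod_cast hH))
    refine h1.trans ?_
    exact card_filter_le' _ _ _ (fun f _ hf => els_of_pt (hpt0 f hf))
  have hns : ∀ ε : ℝ, 0 < ε → ∀ᶠ H : ℕ in atTop,
      (((sysZ ι e (H : ℝ)).filter (fun f => ¬ SmoothS f)).card : ℝ) ≤
        ε * ((sysZ ι e (H : ℝ)).card : ℝ) := by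
    intro ε hε
    obtain ⟨H₀, hH₀⟩ := smooth_dense ι e ε hε
    filter_upwards [eventually_ge_atTop ⌈H₀⌉₊] with H hH
    have h1 := hH₀ (H : ℝ) ((Nat.le_ceil H₀).trans (by exact_mod_cast hH))
    convert h1
  -- the precision
  have h3 := fun i : ℕ => wa_excF ι hm hcard he hcl h1 h2 (M := i + 1) (by omega)
  choose Hf hHf using h3
  obtain ⟨M, hM⟩ : ∃ M : ℕ → ℕ, M = fun H : ℕ => Nat.findGreatest
      (fun j => ∀ i, i < j → Hf i ≤ (H : ℝ)) H := ⟨_, rfl⟩
  have hMtop : Tendsto M atTop atTop := by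
    rw [tendsto_atTop]
    intro b
    obtain ⟨B, hB⟩ := Finset.exists_le ((Finset.range b).image Hf)
    filter_upwards [eventually_ge_atTop b, eventually_ge_atTop ⌈B⌉₊] with H hH1 hH2
    rw [hM]
    apply Nat.le_findGreatest hH1
    intro i hi
    refine (hB _ (Finset.mem_image_of_mem Hf (Finset.mem_range.mpr hi))).trans ?_
    exact (Nat.le_ceil B).trans (by exact_mod_cast hH2)
  have hMspec : ∀ H : ℕ, 1 ≤ M H → Hf (M H - 1) ≤ (H : ℝ) := by
    intro H hH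
    have h2 : ∀ i, i < M H → Hf i ≤ (H : ℝ) := by
      have := Nat.findGreatest_spec (P := fun j => ∀ i, i < j → Hf i ≤ (H : ℝ)) (m := 0) (n := H)
        (Nat.zero_le _) (fun i hi => absurd hi (Nat.not_lt_zero i))
      rw [hM]
      exact this
    exact h2 _ (by omega)
  refine ⟨M, hMtop, ?_⟩
  refine ratio_aux (T := fun H : ℕ => ((sysZ ι e (H : ℝ)).card : ℝ))
    (a := fun H : ℕ => (((sysZ ι e (H : ℝ)).filter
      (fun f => ElsW m f ∧ WAF m (κ + 1) (M H) (f 0))).card : ℝ))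
    (b := fun H : ℕ => (((sysZ ι e (H : ℝ)).filter (fun f => ElsW m f)).card : ℝ))
    (ns := fun H : ℕ => (((sysZ ι e (H : ℝ)).filter (fun f => ¬ SmoothS f)).card : ℝ))
    hc0 hT (fun H => Nat.cast_nonneg _) hns hcb (fun H => ?_) (fun H => ?_) (fun H => ?_)
    (fun H => Nat.cast_nonneg _) ?_
  · exact card_filter_le' _ _ _ (fun f _ hf => ⟨hf.1, hf.2.1⟩)
  · exact card_filter_le' _ _ _ (fun f _ hf => hf.2)
  · rw [sub_le_iff_le_add]
    refine card_filter_le_add' _ _ _ _ (fun f _ hf => ?_)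
    by_cases hs : SmoothS f
    · left; exact ⟨hs, hf⟩
    · right; exact hs
  · rw [Metric.tendsto_nhds]
    intro δ hδ
    obtain ⟨j, hj⟩ := exists_nat_gt (3 / (δ * c))
    filter_upwards [hT, hcb, tendsto_atTop.mp hMtop (j + 1)] with H h4 h5 h6
    have hM0 : (0 : ℝ) < M H := by
      have : 0 < M H := by omega
      exact_mod_cast this
    have h7 := hHf (M H - 1) H (hMspec H (by omega))
    have h8 : M H - 1 + 1 = M H := by omega
    rw [h8] at h7
    have h9 : (((sysZ ι e (H : ℝ)).filter (fun f => ElsW m f)).card : ℝ) ≤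
        (((sysZ ι e (H : ℝ)).filter
          (fun f => ElsW m f ∧ WAF m (κ + 1) (M H) (f 0))).card : ℝ) +
        (((sysZ ι e (H : ℝ)).filter (fun f => ¬ WAF m (κ + 1) (M H) (f 0))).card : ℝ) :=
      card_filter_le_add' (sysZ ι e (H : ℝ)) (fun f => ElsW m f)
        (fun f => ElsW m f ∧ WAF m (κ + 1) (M H) (f 0))
        (fun f => ¬ WAF m (κ + 1) (M H) (f 0)) (fun f _ hf =>
          (Classical.em (WAF m (κ + 1) (M H) (f 0))).imp (fun hs => ⟨hf, hs⟩) id)
    have h10 : (((sysZ ι e (H : ℝ)).filter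
          (fun f => ElsW m f ∧ WAF m (κ + 1) (M H) (f 0))).card : ℝ) ≤
        (((sysZ ι e (H : ℝ)).filter (fun f => ElsW m f)).card : ℝ) :=
      card_filter_le' _ _ _ (fun f _ hf => hf.1)
    obtain ⟨A, hA⟩ : ∃ A : ℝ, A = (((sysZ ι e (H : ℝ)).filter
          (fun f => ElsW m f ∧ WAF m (κ + 1) (M H) (f 0))).card : ℝ) := ⟨_, rfl⟩
    obtain ⟨B, hB⟩ : ∃ B : ℝ, B = (((sysZ ι e (H : ℝ)).filter (fun f => ElsW m f)).card : ℝ) :=
      ⟨_, rfl⟩
    obtain ⟨T, hT⟩ : ∃ T : ℝ, T = ((sysZ ι e (H : ℝ)).card : ℝ) := ⟨_, rfl⟩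
    rw [← hA, ← hB] at h9 h10
    rw [← hT] at h4 h5 h7
    rw [← hB] at h5
    rw [← hA, ← hB]
    have hB0 : 0 < B := lt_of_lt_of_le (by positivity) h5
    rw [Real.dist_eq]
    have h13 : A / B - 1 = -((B - A) / B) := by field_simp; ring
    rw [h13, abs_neg, abs_of_nonneg (div_nonneg (by linarith) hB0.le), div_lt_iff₀ hB0]
    have h14 : 3 / (M H : ℝ) * T < δ * c * T := by
      apply mul_lt_mul_of_pos_right _ h4
      rw [div_lt_iff₀ hM0]
      rw [div_lt_iff₀ (by positivity)] at hj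
      have h16 : (j : ℝ) + 1 ≤ M H := by exact_mod_cast h6
      have h17 := mul_le_mul_of_nonneg_left h16 (by positivity : 0 ≤ δ * c)
      have h18 : 0 < δ * c := by positivity
      linarith
    have h15 : δ * c * T ≤ δ * B := by
      have := mul_le_mul_of_nonneg_left h5 hδ.le
      linarith
    linarith

end Pool.Agent.K6.H67.CW
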