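import Pool.Agent.K6.H67.CW.Exc
import Pool.Agent.Y438.C.WA

/-!
# Cyclic covers: weak approximation from finitely many targets
-/

set_option autoImplicit false

namespace Pool.Agent.K6.H67.CW

open Pool.Agent.Y716.Q Pool.Agent.Y716.C Pool.Agent.R465.CV Filter

variable {ι : Type*} [Fintype ι]

omit [Fintype ι] in
/-- integral approximations of `p`-adic integral points of the cover -/
theorem approx_intW {p : ℕ} [Fact p.Prime] {m : ℕ} (F : MvPolynomial ι ℤ) (y : ι → ℤ_[p])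
    (v : ℤ_[p]) {r : ι} (hyr : y r = 1) (hyv : v ^ m = MvPolynomial.aeval y F) (E : ℕ) :
    ∃ (z : ι → ℤ) (b : ℤ), z r = 1 ∧ (p : ℤ) ^ E ∣ MvPolynomial.eval z F - b ^ m ∧
      (∀ i, (p : ℤ_[p]) ^ E ∣ y i - (z i : ℤ_[p])) ∧ (p : ℤ_[p]) ^ E ∣ v - (b : ℤ_[p]) := by
  classical
  obtain ⟨z, hz⟩ : ∃ z : ι → ℤ, z = fun i => if i = r then 1 else (PadicInt.appr (y i) E : ℤ) :=
    ⟨_, rfl⟩
  have hker : ∀ i, PadicInt.toZModPow E (y i) = ((z i : ℤ) : ZMod (p ^ E)) := by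
    intro i
    by_cases hi : i = r
    · subst hi
      rw [hyr, hz]; simp
    · have : PadicInt.toZModPow E (y i) = ((PadicInt.appr (y i) E : ℕ) : ZMod (p ^ E)) := rfl
      rw [this, hz]
      simp [hi]
  have hv : PadicInt.toZModPow E v = (((PadicInt.appr v E : ℕ) : ℤ) : ZMod (p ^ E)) := by
    have : PadicInt.toZModPow E v = ((PadicInt.appr v E : ℕ) : ZMod (p ^ E)) := rfl
    rw [this]
    push_cast
    rfl
  have hdv : ∀ (a : ℤ_[p]) (b : ℤ), PadicInt.toZModPow E a = ((b : ℤ) : ZMod (p ^ E)) →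
      (p : ℤ_[p]) ^ E ∣ a - (b : ℤ_[p]) := by
    intro a b hab
    have h1 : PadicInt.toZModPow E (a - (b : ℤ_[p])) = 0 := by
      rw [map_sub, hab, map_intCast, sub_self]
    have h2 : a - (b : ℤ_[p]) ∈ RingHom.ker (PadicInt.toZModPow (p := p) E) :=
      (RingHom.mem_ker).mpr h1
    rw [PadicInt.ker_toZModPow, Ideal.mem_span_singleton] at h2
    exact h2
  refine ⟨z, ((PadicInt.appr v E : ℕ) : ℤ), by simp [hz], ?_, fun i => hdv _ _ (hker i), hdv _ _ hv⟩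
  have h3 : ((MvPolynomial.eval z F - ((PadicInt.appr v E : ℕ) : ℤ) ^ m : ℤ) :
      ZMod (p ^ E)) = 0 := by
    have h4 : PadicInt.toZModPow E (MvPolynomial.aeval y F) =
        ((MvPolynomial.eval z F : ℤ) : ZMod (p ^ E)) := by
      rw [MvPolynomial.aeval_def, MvPolynomial.hom_eval₂]
      have h5 : ((MvPolynomial.eval z F : ℤ) : ZMod (p ^ E))
          = (Int.castRingHom (ZMod (p ^ E))) (MvPolynomial.eval₂ (RingHom.id ℤ) z F) := rfl
      rw [h5, MvPolynomial.hom_eval₂]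
      have h6 : ((PadicInt.toZModPow E).comp (algebraMap ℤ ℤ_[p]))
          = (Int.castRingHom (ZMod (p ^ E))).comp (RingHom.id ℤ) := RingHom.ext_int _ _
      rw [h6]
      congr 1
      funext i
      exact hker i
    rw [Int.cast_sub, ← h4, ← hyv, map_pow, hv]
    push_cast
    exact sub_self _
  rw [ZMod.intCast_zmod_eq_zero_iff_dvd] at h3
  exact_mod_cast h3

/-- normalised `p`-adic points of the cover -/
theorem padic_normW {p : ℕ} [Fact p.Prime] {m k : ℕ} (hm : 1 ≤ m) {F : MvPolynomial ι ℤ}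
    (hF : F.IsHomogeneous (m * k)) (x : ι → ℚ_[p]) (y₀ : ℚ_[p]) (hx0 : x ≠ 0)
    (hx : y₀ ^ m = MvPolynomial.aeval x F) :
    ∃ (r : ι) (y : ι → ℤ_[p]) (v : ℤ_[p]), x r ≠ 0 ∧ ‖x r‖ ≤ ‖x‖ ∧ (∀ i, x i = x r * y i) ∧
      y₀ = x r ^ k * v ∧ y r = 1 ∧ v ^ m = MvPolynomial.aeval y F := by
  classical
  obtain ⟨r, y, hr0, hrn, hy, hyr, -⟩ := padic_norm_data (d := 0) (0 : MvPolynomial ι ℤ)
    (MvPolynomial.isHomogeneous_zero _ _ _) x hx0 (map_zero _)
  have hy' : ∀ i, (y i : ℚ_[p]) = (x r)⁻¹ * x i := by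
    intro i
    rw [hy i, inv_mul_cancel_left₀ hr0]
  have hval : (algebraMap ℤ_[p] ℚ_[p]) (MvPolynomial.aeval y F) = ((x r)⁻¹ ^ k * y₀) ^ m := by
    have h2 : (algebraMap ℤ_[p] ℚ_[p]) (MvPolynomial.aeval y F)
        = MvPolynomial.aeval (fun i => (x r)⁻¹ * x i) F := by
      have h3 : (fun i => (x r)⁻¹ * x i) = fun i => (algebraMap ℤ_[p] ℚ_[p]) (y i) := by
        funext i
        rw [← hy' i]
        rfl
      rw [h3, MvPolynomial.aeval_def, MvPolynomial.aeval_def, MvPolynomial.hom_eval₂]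
      congr 1
    rw [h2, aeval_smul' hF, ← hx, mul_pow, ← pow_mul, mul_comm k m]
  obtain ⟨v, hv⟩ : ∃ v : ℤ_[p], (v : ℚ_[p]) = (x r)⁻¹ ^ k * y₀ := by
    refine ⟨⟨(x r)⁻¹ ^ k * y₀, ?_⟩, rfl⟩
    have h3 : ‖((x r)⁻¹ ^ k * y₀) ^ m‖ ≤ 1 := by
      rw [← hval]
      exact PadicInt.norm_le_one _
    rw [norm_pow] at h3
    by_contra hcon
    push Not at hcon
    have := one_lt_pow₀ hcon (by omega : m ≠ 0)
    linarith
  have hvF : v ^ m = MvPolynomial.aeval y F := by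
    have hinj : Function.Injective (algebraMap ℤ_[p] ℚ_[p]) := FaithfulSMul.algebraMap_injective _ _
    apply hinj
    rw [hval, map_pow, ← hv]
    rfl
  refine ⟨r, y, v, hr0, hrn, hy, ?_, hyr, hvF⟩
  rw [hv, ← mul_assoc, ← mul_pow, mul_inv_cancel₀ hr0, one_pow, one_mul]

/-- local data at a prime -/
theorem local_pW {p : ℕ} [hp : Fact p.Prime] {m k M : ℕ} (hm : 1 ≤ m) (hM : 1 ≤ M)
    {F : MvPolynomial ι ℤ} (hF : F.IsHomogeneous (m * k)) (z : ι → ℚ_[p]) (v : ℚ_[p])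
    (hz0 : z ≠ 0) (hzv : v ^ m = MvPolynomial.aeval z F) :
    ∃ (c : ι → ℤ) (b : ℤ), (∀ E : ℕ, ∃ (r : ι) (x : ι → ℤ) (y : ℤ), x r = 1 ∧
      (p : ℤ) ^ E ∣ MvPolynomial.eval x F - y ^ m ∧ (∀ i, (p : ℤ) ^ M ∣ x i - c i) ∧
      (p : ℤ) ^ M ∣ y - b) ∧
      ∀ (x : ι → ℤ) (y : ℤ), (∀ i, (p : ℤ) ^ M ∣ x i - c i) → (p : ℤ) ^ M ∣ y - b →
        ∃ c' : ℚ_[p], c' ≠ 0 ∧ (∀ i, ‖z i - c' * (x i : ℚ_[p])‖ ≤ ‖z‖ / M) ∧
          ‖v - c' ^ k * (y : ℚ_[p])‖ ≤ ‖z‖ ^ k / M := by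
  obtain ⟨r, Y, V, hr0, hrn, hY, hV, hYr, hYV⟩ := padic_normW hm hF z v hz0 hzv
  obtain ⟨c, b, hc1, hc2, hc3, hc4⟩ := approx_intW F Y V hYr hYV M
  have hpM : (p : ℝ) ^ (-(M : ℤ)) ≤ 1 / M := by
    rw [zpow_neg, zpow_natCast, ← one_div]
    apply one_div_le_one_div_of_le (by exact_mod_cast hM)
    have h5 : M < 2 ^ M := Nat.lt_two_pow_self
    have h6 : 2 ^ M ≤ p ^ M := Nat.pow_le_pow_left hp.out.two_le _
    have h7 : M ≤ p ^ M := by omega
    exact_mod_cast h7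
  refine ⟨c, b, fun E => ?_, fun x y hx hy => ?_⟩
  · obtain ⟨x, y, hx1, hx2, hx3, hx4⟩ := approx_intW F Y V hYr hYV (max E M)
    refine ⟨r, x, y, hx1, (pow_dvd_pow _ (le_max_left _ _)).trans hx2, fun i => ?_, ?_⟩
    · rw [← padic_dvd_iff]
      push_cast
      have h1 := (pow_dvd_pow (p : ℤ_[p]) (le_max_right E M)).trans (hx3 i)
      have := dvd_sub (hc3 i) h1
      simpa using this
    · rw [← padic_dvd_iff]
      push_cast
      have h1 := (pow_dvd_pow (p : ℤ_[p]) (le_max_right E M)).trans hx4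
      have := dvd_sub hc4 h1
      simpa using this
  · refine ⟨z r, hr0, fun i => ?_, ?_⟩
    · have h1 : (p : ℤ_[p]) ^ M ∣ Y i - (x i : ℤ_[p]) := by
        have h2 := (padic_dvd_iff (p := p) M (x i - c i)).mpr (hx i)
        push_cast at h2
        have := dvd_sub (hc3 i) h2
        simpa using this
      have h2 : ‖Y i - (x i : ℤ_[p])‖ ≤ (p : ℝ) ^ (-(M : ℤ)) := by
        rw [PadicInt.norm_le_pow_iff_mem_span_pow, Ideal.mem_span_singleton]
        exact h1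
      have h3 : z i - z r * (x i : ℚ_[p]) = z r * ((Y i - (x i : ℤ_[p]) : ℤ_[p]) : ℚ_[p]) := by
        rw [hY i]
        push_cast
        ring
      rw [h3, norm_mul]
      have h4 : ‖((Y i - (x i : ℤ_[p]) : ℤ_[p]) : ℚ_[p])‖ = ‖Y i - (x i : ℤ_[p])‖ := rfl
      rw [h4, div_eq_mul_one_div]
      exact mul_le_mul hrn (h2.trans hpM) (norm_nonneg _) (norm_nonneg _)
    · have h1 : (p : ℤ_[p]) ^ M ∣ V - (y : ℤ_[p]) := by
        have h2 := (padic_dvd_iff (p := p) M (y - b)).mpr hy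
        push_cast at h2
        have := dvd_sub hc4 h2
        simpa using this
      have h2 : ‖V - (y : ℤ_[p])‖ ≤ (p : ℝ) ^ (-(M : ℤ)) := by
        rw [PadicInt.norm_le_pow_iff_mem_span_pow, Ideal.mem_span_singleton]
        exact h1
      have h3 : v - z r ^ k * (y : ℚ_[p]) = z r ^ k * ((V - (y : ℤ_[p]) : ℤ_[p]) : ℚ_[p]) := by
        rw [hV]
        push_cast
        ring
      rw [h3, norm_mul, norm_pow]
      have h4 : ‖((V - (y : ℤ_[p]) : ℤ_[p]) : ℚ_[p])‖ = ‖V - (y : ℤ_[p])‖ := rfl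
      rw [h4, div_eq_mul_one_div]
      exact mul_le_mul (pow_le_pow_left₀ (norm_nonneg _) hrn _) (h2.trans hpM) (norm_nonneg _)
        (by positivity)

/-- Weak approximation on the cover `w ^ m = F(x)`, with precision `1 / M` at the primes up to `M`
and at the real place (for `w`: relative to `h`). -/
def WAh (m k M : ℕ) (h : ℝ) (F : MvPolynomial ι ℤ) : Prop :=
  ∀ (z : ∀ (p : ℕ) [Fact p.Prime], ι → ℚ_[p]) (v : ∀ (p : ℕ) [Fact p.Prime], ℚ_[p])
    (y : ι → ℝ) (u : ℝ),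
    (∀ (p : ℕ) [Fact p.Prime], z p ≠ 0 ∧ v p ^ m = MvPolynomial.aeval (z p) F) → y ≠ 0 →
    u ^ m = MvPolynomial.aeval y F →
    ∃ (x : ι → ℚ) (w : ℚ), x ≠ 0 ∧ w ^ m = MvPolynomial.aeval x F ∧
      (∀ (p : ℕ) [Fact p.Prime], p ≤ M → ∃ c : ℚ_[p], c ≠ 0 ∧
        (∀ i, ‖z p i - c * (x i : ℚ_[p])‖ ≤ ‖z p‖ / M) ∧
        ‖v p - c ^ k * (w : ℚ_[p])‖ ≤ ‖z p‖ ^ k / M) ∧
      ∃ c : ℝ, c ≠ 0 ∧ (∀ i, |y i - c * (x i : ℝ)| ≤ ‖y‖ / M) ∧
        |u - c ^ k * (w : ℝ)| ≤ ‖y‖ ^ k * h / M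

/-- the finite set of targets -/
noncomputable def targetsW (ι : Type*) [Fintype ι] (M K : ℕ) :
    Finset (((ι → ℤ) × (ι → ℤ)) × (ℤ × ℤ)) :=
  (targets ι M) ×ˢ ((Finset.Ico (0 : ℤ) (modN M)) ×ˢ
    (Finset.Icc (-(3 * M * K : ℤ)) (3 * M * K)))

/-- the grid -/
theorem grid {M K : ℕ} (hM : 1 ≤ M) {a : ℝ} (ha : |a| ≤ K) :
    ∃ t ∈ Finset.Icc (-(3 * M * K : ℤ)) (3 * M * K), |a - (t : ℝ) / (3 * M)| ≤ 1 / (3 * M) := by
  have hmr : (1:ℝ) ≤ M := by exact_mod_cast hM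
  have h1 := abs_le.mp ha
  have h3 : (0:ℝ) < 3 * M := by linarith
  refine ⟨⌊a * (3 * M)⌋, ?_, ?_⟩
  · rw [Finset.mem_Icc]
    constructor
    · rw [Int.le_floor]
      push_cast
      have := mul_le_mul_of_nonneg_right h1.1 h3.le
      linarith
    · have h4 : (⌊a * (3 * M)⌋ : ℝ) ≤ 3 * M * K := by
        refine (Int.floor_le _).trans ?_
        have := mul_le_mul_of_nonneg_right h1.2 h3.le
        linarith
      exact_mod_cast h4
  · have h4 := Int.floor_le (a * (3 * M))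
    have h5 := Int.lt_floor_add_one (a * (3 * M))
    have h6 : a - (⌊a * (3 * M)⌋ : ℝ) / (3 * M) = (a * (3 * M) - ⌊a * (3 * M)⌋) / (3 * M) := by
      field_simp
    rw [h6, abs_div, abs_of_pos h3]
    apply div_le_div_of_nonneg_right _ h3.le
    rw [abs_le]
    constructor <;> linarith

theorem wa_of_targetsW {m k M K : ℕ} (hm : 1 ≤ m) (hM : 1 ≤ M) {h : ℝ} (hh : 0 < h)
    {f : Fin 1 → MvPolynomial ι ℤ} (hF : (f 0).IsHomogeneous (m * k))
    (hK : ∀ (ξ : ι → ℝ) (y : ℝ), (∀ i, |ξ i| ≤ 1) → y ^ m = MvPolynomial.aeval ξ (f 0) →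
      |y| ≤ K * h)
    (hT : ∀ t ∈ targetsW ι M K,
      LocSolW m (modN M) t.1.1 t.2.1 (fun i => (t.1.2 i : ℝ) / (3 * M)) ((t.2.2 : ℝ) / (3 * M))
        (1 / (3 * M)) h f →
      SolTW m k (modN M) t.1.1 t.2.1 (fun i => (t.1.2 i : ℝ) / (3 * M)) ((t.2.2 : ℝ) / (3 * M))
        (1 / (3 * M)) h f) :
    WAh m k M h (f 0) := by
  classical
  intro z v y u hz hy0 hyu
  have hmr : (1:ℝ) ≤ M := by exact_mod_cast hM
  -- data at the primes
  have hloc : ∀ p : ℕ, p.Prime → ∃ (c : ι → ℤ) (b : ℤ), (∀ E : ℕ, ∃ (r : ι) (x : ι → ℤ) (y : ℤ),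
      x r = 1 ∧ (p : ℤ) ^ E ∣ MvPolynomial.eval x (f 0) - y ^ m ∧
      (∀ i, (p : ℤ) ^ M ∣ x i - c i) ∧ (p : ℤ) ^ M ∣ y - b) ∧
      ∀ (x : ι → ℤ) (y : ℤ), (∀ i, (p : ℤ) ^ M ∣ x i - c i) → (p : ℤ) ^ M ∣ y - b →
        ∀ [Fact p.Prime], ∃ c' : ℚ_[p], c' ≠ 0 ∧
        (∀ i, ‖z p i - c' * (x i : ℚ_[p])‖ ≤ ‖z p‖ / M) ∧
        ‖v p - c' ^ k * (y : ℚ_[p])‖ ≤ ‖z p‖ ^ k / M := by
    intro p hp
    have : Fact p.Prime := ⟨hp⟩
    obtain ⟨c, b, h1, h2⟩ := local_pW hm hM hF (z p) (v p) (hz p).1 (hz p).2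
    exact ⟨c, b, h1, fun x y hx hy _ => h2 x y hx hy⟩
  choose! cP bP hcP1 hcP2 using hloc
  -- Chinese remainder theorem
  have hcrt : ∀ g : ℕ → ℤ, ∃ c : ℤ, c ∈ Finset.Ico (0 : ℤ) (modN M) ∧
      ∀ p ∈ primesUpTo M, (p : ℤ) ^ M ∣ c - g p := by
    intro g
    have := Ideal.exists_forall_sub_mem_ideal (R := ℤ)
      (I := fun p : primesUpTo M => Ideal.span {((p : ℕ) : ℤ) ^ M}) (by
        intro p q hpq
        simp only [Function.onFun]
        rw [Ideal.isCoprime_span_singleton_iff]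
        exact (Nat.isCoprime_iff_coprime.mpr
          (primes_coprime p.2 q.2 (fun h => hpq (Subtype.ext h)))).pow) (fun p => g p)
    obtain ⟨c, hc⟩ := this
    have hN0 : (0 : ℤ) < modN M := by exact_mod_cast modN_pos M
    refine ⟨c % (modN M : ℤ), ?_, fun p hp => ?_⟩
    · rw [Finset.mem_Ico]
      exact ⟨Int.emod_nonneg _ hN0.ne', Int.emod_lt_of_pos _ hN0⟩
    · have h1 : (p : ℤ) ^ M ∣ c - g p := Ideal.mem_span_singleton.mp (hc ⟨p, hp⟩)
      have h2 : (p : ℤ) ^ M ∣ (modN M : ℤ) := by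
        exact_mod_cast dvd_modN (mem_primesUpTo.mp hp).2 (mem_primesUpTo.mp hp).1
      have h3 : (modN M : ℤ) ∣ c % (modN M : ℤ) - c := by
        have := Int.emod_add_mul_ediv c (modN M : ℤ)
        exact ⟨-(c / (modN M : ℤ)), by linarith⟩
      have := dvd_add (h2.trans h3) h1
      simpa using this
  have hcrt' := fun i => hcrt (fun p => cP p i)
  choose c hc1 hc2 using hcrt'
  obtain ⟨b, hb1, hb2⟩ := hcrt bP
  -- real data
  obtain ⟨r, hr0, hrn, hr1⟩ := real_norm_data y hy0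
  have hgrid : ∀ i, ∃ t ∈ Finset.Icc (-(3 * M : ℤ)) (3 * M),
      |(y r)⁻¹ * y i - (t : ℝ) / (3 * M)| ≤ 1 / (3 * M) := by
    intro i
    obtain ⟨t, ht1, ht2⟩ := grid (K := 1) hM (a := (y r)⁻¹ * y i) (by
      push_cast; exact hr1 i)
    refine ⟨t, ?_, ht2⟩
    simpa using ht1
  choose t ht1 ht2 using hgrid
  have huF : ((y r)⁻¹ ^ k * u) ^ m = MvPolynomial.aeval (fun i => (y r)⁻¹ * y i) (f 0) := by
    rw [aeval_smul' hF, ← hyu, mul_pow, ← pow_mul, mul_comm k m]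
  obtain ⟨u', hu'⟩ : ∃ u' : ℝ, u' = (y r)⁻¹ ^ k * u := ⟨_, rfl⟩
  rw [← hu'] at huF
  have hu'K := hK _ u' hr1 huF
  obtain ⟨ω, hω1, hω2⟩ := grid hM (a := u' / h) (K := K) (by
    rw [abs_div, abs_of_pos hh, div_le_iff₀ hh]
    exact hu'K)
  have hω3 : |u' - (ω : ℝ) / (3 * M) * h| ≤ 1 / (3 * M) * h := by
    have h1 : u' - (ω : ℝ) / (3 * M) * h = (u' / h - (ω : ℝ) / (3 * M)) * h := by
      field_simp
    rw [h1, abs_mul, abs_of_pos hh]
    exact mul_le_mul_of_nonneg_right hω2 hh.le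
  have hmem : ((c, t), (b, ω)) ∈ targetsW ι M K := by
    unfold targetsW targets
    rw [Finset.mem_product, Finset.mem_product, Fintype.mem_piFinset, Fintype.mem_piFinset,
      Finset.mem_product]
    exact ⟨⟨hc1, ht1⟩, hb1, hω1⟩
  have hL : LocSolW m (modN M) c b (fun i => (t i : ℝ) / (3 * M)) ((ω : ℝ) / (3 * M))
      (1 / (3 * M)) h f := by
    constructor
    · intro p hp E
      obtain ⟨r', x, y', hx1, hx2, hx3, hx4⟩ := hcP1 p hp E
      refine ⟨r', x, y', hx1, hx2, fun a ha => ?_⟩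
      rcases pow_dvd_modN hp ha with ⟨h1, h2⟩ | h1
      · have h3 : (p : ℤ) ^ a ∣ (p : ℤ) ^ M := by exact_mod_cast h2
        refine ⟨fun i => h3.trans ?_, h3.trans ?_⟩
        · have := dvd_sub (hx3 i) (hc2 i p (mem_primesUpTo.mpr ⟨h1, hp⟩))
          simpa using this
        · have := dvd_sub hx4 (hb2 p (mem_primesUpTo.mpr ⟨h1, hp⟩))
          simpa using this
      · have h3 : (p : ℤ) ^ a = 1 := by exact_mod_cast h1
        rw [h3]; exact ⟨fun i => one_dvd _, one_dvd _⟩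
    · exact ⟨r, fun i => (y r)⁻¹ * y i, u', inv_mul_cancel₀ hr0, hr1, ht2, hω3, huF⟩
  obtain ⟨x, w, hx1, hx2, hx3, hw3, P, hP, hx4, hw4⟩ := hT _ hmem hL
  simp only at hx3 hx4 hw3 hw4
  refine ⟨fun i => (x i : ℚ), (w : ℚ), ?_, ?_, ?_, ?_⟩
  · intro h0
    apply hx1.ne_zero'
    funext i
    have := congrFun h0 i
    simp only [Pi.zero_apply] at this
    exact_mod_cast this
  · rw [aeval_cast, ← hx2]
    push_cast
    rfl
  · intro p hp hpm
    have hN : (p : ℤ) ^ M ∣ (modN M : ℤ) := by exact_mod_cast dvd_modN hp.out hpm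
    have := hcP2 p hp.out x w (fun i => by
      have := dvd_add (hN.trans (hx3 i)) (hc2 i p (mem_primesUpTo.mpr ⟨hpm, hp.out⟩))
      simpa using this) (by
      have := dvd_add (hN.trans hw3) (hb2 p (mem_primesUpTo.mpr ⟨hpm, hp.out⟩))
      simpa using this)
    obtain ⟨c', h1, h2, h3⟩ := this
    refine ⟨c', h1, fun i => ?_, ?_⟩
    · have := h2 i
      simpa using this
    · simpa using h3
  · refine ⟨y r / P, div_ne_zero hr0 hP.ne', fun i => ?_, ?_⟩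
    · have h1 := ht2 i
      have h2 := hx4 i
      have h3 : y i - y r / P * ((x i : ℚ) : ℝ) =
          y r * (((y r)⁻¹ * y i - (t i : ℝ) / (3 * M)) -
            ((x i : ℝ) - P * ((t i : ℝ) / (3 * M))) / P) := by
        push_cast
        field_simp
        ring
      have h6 : ‖y‖ / M = ‖y‖ * (1 / M) := div_eq_mul_one_div _ _
      rw [h3, abs_mul, h6]
      apply mul_le_mul hrn _ (abs_nonneg _) (norm_nonneg _)
      refine (abs_sub _ _).trans ?_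
      have h4 : |((x i : ℝ) - P * ((t i : ℝ) / (3 * M))) / P| ≤ 2 * (1 / (3 * M)) := by
        rw [abs_div, abs_of_pos hP, div_le_iff₀ hP]
        exact h2
      have h5 : (1 : ℝ) / M = 3 * (1 / (3 * M)) := by field_simp
      rw [h5]
      linarith
    · have hPk : 0 < P ^ k := by positivity
      have h3 : u - (y r / P) ^ k * ((w : ℚ) : ℝ) =
          y r ^ k * ((u' - (ω : ℝ) / (3 * M) * h) -
            ((w : ℝ) - P ^ k * ((ω : ℝ) / (3 * M) * h)) / P ^ k) := by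
        have hu : u = y r ^ k * u' := by
          rw [hu', ← mul_assoc, ← mul_pow, mul_inv_cancel₀ hr0, one_pow, one_mul]
        rw [hu, div_pow]
        push_cast
        field_simp
        ring
      have h6 : ‖y‖ ^ k * h / M = ‖y‖ ^ k * (h * (1 / M)) := by ring
      rw [h3, abs_mul, abs_pow, h6]
      apply mul_le_mul (pow_le_pow_left₀ (abs_nonneg _) hrn _) _ (abs_nonneg _) (by positivity)
      refine (abs_sub _ _).trans ?_
      have h4 : |((w : ℝ) - P ^ k * ((ω : ℝ) / (3 * M) * h)) / P ^ k| ≤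
          2 * (1 / (3 * M)) * h := by
        rw [abs_div, abs_of_pos hPk, div_le_iff₀ hPk]
        linarith
      have h5 : h * ((1 : ℝ) / M) = 3 * (1 / (3 * M)) * h := by field_simp
      rw [h5]
      linarith

open scoped Classical in
theorem wa_excW (ι : Type*) [Fintype ι] {m κ : ℕ} (hm : 2 ≤ m) (hcard : 1 < Fintype.card ι)
    {e : Fin 1 → ℕ} (he : ∀ j, e j + 2 = m * (κ + 1))
    (hcl : ClassStmtS ι e) (h1 : BadCountInt ι e) (h2 : BadCountReal ι e)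
    {M : ℕ} (hM : 1 ≤ M) {ε : ℝ} (hε : 0 < ε) :
    ∃ H₀ : ℝ, ∀ h : ℝ, 0 < h → H₀ ≤ h ^ m →
    (((sysZ ι e (h ^ m)).filter (fun f => ¬ WAh m (κ + 1) M h (f 0))).card : ℝ) ≤
        ε * (sysZ ι e (h ^ m)).card := by
  obtain ⟨K, hK⟩ : ∃ K : ℕ, K = (mons ι (e 0 + 2)).card := ⟨_, rfl⟩
  have hmr : (1:ℝ) ≤ M := by exact_mod_cast hM
  have hδ : (0:ℝ) < 1 / (3 * M) := by positivity
  have hK1 : 1 ≤ K := by
    rw [hK, Nat.one_le_iff_ne_zero, ← Nat.pos_iff_ne_zero, Finset.card_pos]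
    obtain ⟨i⟩ : Nonempty ι := Fintype.card_pos_iff.mp (by omega)
    refine ⟨Finsupp.single i (e 0 + 2), mem_mons.mpr ?_⟩
    rw [Finset.sum_eq_single i (fun j _ hj => by rw [Finsupp.single_apply, if_neg (Ne.symm hj)])
      (fun h => absurd (Finset.mem_univ i) h), Finsupp.single_eq_same]
  have h3 := fun t : ((ι → ℤ) × (ι → ℤ)) × (ℤ × ℤ) =>
    exc_coverV ι hm hcard he hcl h1 h2 (modN M) (modN_pos M) t.1.1 t.2.1
    (fun i => (t.1.2 i : ℝ) / (3 * M)) ((t.2.2 : ℝ) / (3 * M)) (1 / (3 * M)) hδ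
    (ε / ((targetsW ι M K).card + 1)) (by positivity)
  choose Hf hHf using h3
  obtain ⟨H₀, hH₀⟩ := Finset.exists_le ((targetsW ι M K).image Hf)
  refine ⟨H₀, fun h hh hH => ?_⟩
  have hsub : (sysZ ι e (h ^ m)).filter (fun f => ¬ WAh m (κ + 1) M h (f 0)) ⊆
      (targetsW ι M K).biUnion (fun t => (sysZ ι e (h ^ m)).filter (fun f =>
        LocSolW m (modN M) t.1.1 t.2.1 (fun i => (t.1.2 i : ℝ) / (3 * M)) ((t.2.2 : ℝ) / (3 * M))
          (1 / (3 * M)) h f ∧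
        ¬ SolTW m (κ + 1) (modN M) t.1.1 t.2.1 (fun i => (t.1.2 i : ℝ) / (3 * M))
          ((t.2.2 : ℝ) / (3 * M)) (1 / (3 * M)) h f)) := by
    intro f hf
    rw [Finset.mem_filter] at hf
    rw [Finset.mem_biUnion]
    by_contra hcon
    push Not at hcon
    apply hf.2
    have hf0 := mem_sysZ.mp hf.1 0
    apply wa_of_targetsW (K := K) (by omega) hM hh (f := f) (by
      have := hf0.1
      rwa [he 0] at this)
    · intro ξ y hξ hy
      have h1 := hf0.aeval_le_one hξ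
      rw [← hy, abs_pow, ← hK] at h1
      have hK1r : (1 : ℝ) ≤ K := by exact_mod_cast hK1
      have h2 : (K : ℝ) * h ^ m ≤ (K * h) ^ m := by
        rw [mul_pow]
        exact mul_le_mul_of_nonneg_right (le_self_pow₀ hK1r (by omega)) (by positivity)
      by_contra hcon
      push Not at hcon
      have h3 := pow_lt_pow_left₀ hcon (by positivity) (by omega : m ≠ 0)
      linarith
    · intro t ht hL
      by_contra hS
      exact hcon t ht (Finset.mem_filter.mpr ⟨hf.1, hL, hS⟩)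
  have h4 := (Finset.card_le_card hsub).trans Finset.card_biUnion_le
  have h5 := (Nat.cast_le (α := ℝ)).mpr h4
  push_cast at h5
  refine h5.trans ?_
  calc _ ≤ (targetsW ι M K).card • (ε / ((targetsW ι M K).card + 1) *
        ((sysZ ι e (h ^ m)).card : ℝ)) := by
        apply Finset.sum_le_card_nsmul
        intro t ht
        exact hHf t h hh.le ((hH₀ _ (Finset.mem_image_of_mem Hf ht)).trans hH)
    _ = ((targetsW ι M K).card / ((targetsW ι M K).card + 1)) *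
        (ε * ((sysZ ι e (h ^ m)).card : ℝ)) := by
        rw [nsmul_eq_mul]; ring
    _ ≤ 1 * (ε * ((sysZ ι e (h ^ m)).card : ℝ)) := by
        apply mul_le_mul_of_nonneg_right _ (by positivity)
        rw [div_le_one (by positivity)]
        linarith
    _ = _ := one_mul _

end Pool.Agent.K6.H67.CW
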